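import Mathlib

set_option autoImplicit false
set_option linter.unusedSectionVars false

/-!
# Abstract part: functions with the same lowering deck modulo a permutation group
-/

namespace Pool.Agent.Helper63.EV

open Finset Equiv

variable {C : Type*} [Fintype C] [DecidableEq C]

/-- `z` lowered by one at `x`. -/
def low (z : C → ℕ) (x : C) : C → ℕ := Function.update z x (z x - 1)

/-- `g` raised by one at `x`. -/
def up (g : C → ℕ) (x : C) : C → ℕ := Function.update g x (g x + 1)

/-- The leaves sitting at the points where `z` is positive. -/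
abbrev NL (r z : C → ℕ) : Type _ := {l : Σ v : C, Fin (z v + r v) // 1 ≤ z l.1}

/-- The weighted lowering decks of `z` and `z'` modulo `Γ` agree. -/
def AbsDeck (Γ : Subgroup (Perm C)) (r z z' : C → ℕ) : Prop :=
  ∃ e : NL r z ≃ NL r z', ∀ l : NL r z, ∃ γ ∈ Γ, low z' (e l).1.1 = low z l.1.1 ∘ γ

lemma sum_NL {M : Type*} [AddCommMonoid M] (r z : C → ℕ) (φ : C → M) :
    ∑ l : NL r z, φ l.1.1 = ∑ v, if 1 ≤ z v then (z v + r v) • φ v else 0 := by
  classical
  have h1 : ∑ l : NL r z, φ l.1.1
      = ∑ l : Σ v : C, Fin (z v + r v), if 1 ≤ z l.1 then φ l.1 else 0 := by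
    rw [← Finset.sum_filter]
    exact (Finset.sum_subtype (Finset.univ.filter fun l : Σ v : C, Fin (z v + r v) => 1 ≤ z l.1)
      (by intro x; simp) (fun l => φ l.1)).symm
  rw [h1, Fintype.sum_sigma]
  refine Finset.sum_congr rfl fun v _ => ?_
  simp only [Finset.sum_const, Finset.card_univ, Fintype.card_fin]
  split_ifs <;> simp

/-- quadratic invariant on a set of points -/
def qO (O : Finset C) (h : C → ℕ) : ℤ := ∑ v ∈ O, (h v : ℤ) ^ 2

/-- linear invariant -/
def lO (O : Finset C) (h : C → ℕ) : ℤ := ∑ v ∈ O, (h v : ℤ)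

def rO (r h : C → ℕ) : ℤ := ∑ v, (r v : ℤ) * (h v : ℤ)

lemma sum_low (O : Finset C) (z : C → ℕ) (x : C) (F : C → ℕ → ℤ) :
    ∑ v ∈ O, F v (low z x v)
      = ∑ v ∈ O, F v (z v) + (if x ∈ O then F x (z x - 1) - F x (z x) else 0) := by
  classical
  have : ∀ v ∈ O, F v (low z x v) = F v (z v) + (if v = x then F x (z x - 1) - F x (z x) else 0) := by
    intro v _
    by_cases h : v = x
    · subst h; simp [low]
    · simp [low, h]
  rw [Finset.sum_congr rfl this, Finset.sum_add_distrib, Finset.sum_ite_eq' O x]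

lemma qO_low (O : Finset C) (z : C → ℕ) (x : C) (hx : 1 ≤ z x) :
    qO O (low z x) = qO O z - (if x ∈ O then 2 * (z x : ℤ) - 1 else 0) := by
  rw [qO, qO, sum_low O z x (fun _ n => (n : ℤ) ^ 2)]
  split_ifs with h
  · push_cast [Nat.cast_sub hx]; ring
  · ring

lemma lO_low (O : Finset C) (z : C → ℕ) (x : C) (hx : 1 ≤ z x) :
    lO O (low z x) = lO O z - (if x ∈ O then 1 else 0) := by
  rw [lO, lO, sum_low O z x (fun _ n => (n : ℤ))]
  split_ifs with h
  · push_cast [Nat.cast_sub hx]; ring
  · ring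

lemma rO_low (r z : C → ℕ) (x : C) (hx : 1 ≤ z x) :
    rO r (low z x) = rO r z - r x := by
  rw [rO, rO, sum_low Finset.univ z x (fun v n => (r v : ℤ) * (n : ℤ))]
  simp only [Finset.mem_univ, if_true]
  push_cast [Nat.cast_sub hx]; ring

/-- `O` is preserved by `σ`. -/
def Pres (O : Finset C) (σ : Perm C) : Prop := ∀ v, σ v ∈ O ↔ v ∈ O

lemma sum_comp_pres {M : Type*} [AddCommMonoid M] {O : Finset C} {σ : Perm C} (h : Pres O σ)
    (F : C → M) : ∑ v ∈ O, F (σ v) = ∑ v ∈ O, F v := by
  classical
  refine Finset.sum_nbij' (fun v => σ v) (fun v => σ.symm v) ?_ ?_ ?_ ?_ ?_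
  · intro a ha; exact (h a).2 ha
  · intro a ha
    have := h (σ.symm a)
    simp only [Equiv.apply_symm_apply] at this
    exact this.1 ha
  · intro a _; simp
  · intro a _; simp
  · intro a _; rfl

lemma qO_comp {O : Finset C} {σ : Perm C} (h : Pres O σ) (f : C → ℕ) : qO O (f ∘ σ) = qO O f :=
  sum_comp_pres h (fun v => (f v : ℤ) ^ 2)

lemma lO_comp {O : Finset C} {σ : Perm C} (h : Pres O σ) (f : C → ℕ) : lO O (f ∘ σ) = lO O f :=
  sum_comp_pres h (fun v => (f v : ℤ))

lemma rO_comp {r : C → ℕ} {σ : Perm C} (h : ∀ v, r (σ v) = r v) (f : C → ℕ) :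
    rO r (f ∘ σ) = rO r f := by
  unfold rO
  have : ∀ v, (r v : ℤ) * ((f ∘ σ) v : ℤ) = (fun v => (r v : ℤ) * (f v : ℤ)) (σ v) := by
    intro v; simp [h v]
  rw [Finset.sum_congr rfl (fun v _ => this v)]
  exact Equiv.sum_comp σ (fun v => (r v : ℤ) * (f v : ℤ))

lemma pres_univ (σ : Perm C) : Pres (Finset.univ : Finset C) σ := fun v => by simp

section deck

variable {Γ : Subgroup (Perm C)} {r z z' : C → ℕ}

/-- Step 1: equality of the quadratic invariants. -/
theorem qO_eq (hr : ∀ γ ∈ Γ, ∀ v, r (γ v) = r v) (hr2 : ∀ v, r v ≤ 2)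
    (hD : AbsDeck Γ r z z')
    (hL : 5 ≤ Fintype.card (NL r z) ∨ (3 ≤ Fintype.card (NL r z) ∧ ∀ v, r v = 0))
    (O : Finset C) (hO : ∀ γ ∈ Γ, Pres O γ) :
    qO O z = qO O z' := by
  classical
  obtain ⟨e, he⟩ := hD
  -- matched pairs
  have h1 : ∀ l : NL r z, qO univ z - (2 * (z l.1.1 : ℤ) - 1)
      = qO univ z' - (2 * (z' (e l).1.1 : ℤ) - 1) := by
    intro l
    obtain ⟨γ, hγ, h⟩ := he l
    have h2 := qO_low univ z l.1.1 l.2
    have h3 := qO_low univ z' (e l).1.1 (e l).2
    rw [h, qO_comp (pres_univ γ), h2] at h3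
    simpa using h3
  have h2 : ∀ l : NL r z, rO r z - r l.1.1 = rO r z' - r (e l).1.1 := by
    intro l
    obtain ⟨γ, hγ, h⟩ := he l
    have h2 := rO_low r z l.1.1 l.2
    have h3 := rO_low r z' (e l).1.1 (e l).2
    rw [h, rO_comp (hr γ hγ), h2] at h3
    exact h3
  have hsum : ∀ y : C → ℕ, ∑ l : NL r y, (y l.1.1 : ℤ) = qO univ y + rO r y := by
    intro y
    rw [sum_NL r y (fun v => (y v : ℤ)), qO, rO, ← Finset.sum_add_distrib]
    refine Finset.sum_congr rfl fun v _ => ?_
    split_ifs with h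
    · simp; ring
    · have : y v = 0 := by omega
      simp [this]
  have h3 : (Fintype.card (NL r z) : ℤ) * (qO univ z - qO univ z')
      = 2 * ((qO univ z + rO r z) - (qO univ z' + rO r z')) := by
    rw [← hsum z, ← hsum z', ← Equiv.sum_comp e, ← Finset.sum_sub_distrib, Finset.mul_sum]
    have : ∀ l ∈ (univ : Finset (NL r z)), 2 * ((z l.1.1 : ℤ) - (z' (e l).1.1 : ℤ))
        = qO univ z - qO univ z' := by
      intro l _; linarith [h1 l]
    rw [Finset.sum_congr rfl this]
    simp only [Finset.sum_const, Finset.card_univ, nsmul_eq_mul]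
  -- pick a leaf
  have hpos : 0 < Fintype.card (NL r z) := by omega
  obtain ⟨l0⟩ : Nonempty (NL r z) := Fintype.card_pos_iff.1 hpos
  have hd : qO univ z - qO univ z' = 2 * ((z l0.1.1 : ℤ) - z' (e l0).1.1) := by
    linarith [h1 l0]
  set δ : ℤ := (z l0.1.1 : ℤ) - z' (e l0).1.1 with hδ
  have hε : rO r z - rO r z' = (r l0.1.1 : ℤ) - r (e l0).1.1 := by linarith [h2 l0]
  have h4 : ((Fintype.card (NL r z) : ℤ) - 2) * δ = (r l0.1.1 : ℤ) - r (e l0).1.1 := by
    rw [hd] at h3
    have : (Fintype.card (NL r z) : ℤ) * (2 * δ) = 2 * (2 * δ + ((r l0.1.1 : ℤ) - r (e l0).1.1)) := by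
      rw [h3]; linarith
    linarith
  have hδ0 : δ = 0 := by
    rcases hL with h5 | ⟨h3', hr0⟩
    · have hb1 := hr2 l0.1.1
      have hb2 := hr2 (e l0).1.1
      by_contra hne
      have habs : 1 ≤ |δ| := Int.one_le_abs hne
      have h6 : |((Fintype.card (NL r z) : ℤ) - 2) * δ| ≤ 2 := by
        rw [h4, abs_le]; constructor <;> omega
      rw [abs_mul] at h6
      have h7 : (3 : ℤ) ≤ |(Fintype.card (NL r z) : ℤ) - 2| := by
        rw [abs_of_nonneg (by omega)]; omega
      nlinarith
    · have h5 : ((Fintype.card (NL r z) : ℤ) - 2) * δ = 0 := by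
        rw [h4, hr0, hr0]; simp
      rcases mul_eq_zero.1 h5 with h6 | h6
      · omega
      · exact h6
  have hzz : ∀ l : NL r z, z l.1.1 = z' (e l).1.1 := by
    intro l
    have := h1 l
    rw [hδ0] at hd
    have h5 : (z l.1.1 : ℤ) = z' (e l).1.1 := by linarith
    exact_mod_cast h5
  -- membership in O is preserved
  have h5 : ∀ l : NL r z, lO O z - (if l.1.1 ∈ O then 1 else 0)
      = lO O z' - (if (e l).1.1 ∈ O then 1 else 0) := by
    intro l
    obtain ⟨γ, hγ, h⟩ := he l
    have h2 := lO_low O z l.1.1 l.2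
    have h3 := lO_low O z' (e l).1.1 (e l).2
    rw [h, lO_comp (hO γ hγ), h2] at h3
    exact h3
  have h5u : ∀ l : NL r z, lO univ z - 1 = lO univ z' - 1 := by
    intro l
    obtain ⟨γ, hγ, h⟩ := he l
    have h2 := lO_low univ z l.1.1 l.2
    have h3 := lO_low univ z' (e l).1.1 (e l).2
    rw [h, lO_comp (pres_univ γ), h2] at h3
    simpa using h3
  -- total mass at least two
  have hK : 2 ≤ lO univ z := by
    by_contra hcon
    have hnn : ∀ v ∈ (univ : Finset C), (0 : ℤ) ≤ (z v : ℤ) := fun v _ => by positivity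
    have hle : ∀ v, (z v : ℤ) ≤ lO univ z := fun v =>
      Finset.single_le_sum hnn (Finset.mem_univ v)
    -- the cardinality of `NL` is at most `3` (at most `1` if `r = 0`)
    have hcard : (Fintype.card (NL r z) : ℤ) = ∑ v, (if 1 ≤ z v then ((z v : ℤ) + r v) else 0) := by
      have := sum_NL r z (fun _ => (1 : ℤ))
      simp only [Finset.sum_const, Finset.card_univ, nsmul_eq_mul, mul_one] at this
      rw [this]
      refine Finset.sum_congr rfl fun v _ => ?_
      split_ifs <;> simp
    have hub : ∀ M : ℕ, (∀ v, r v ≤ M) →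
        (Fintype.card (NL r z) : ℤ) ≤ (1 + M) * lO univ z := by
      intro M hM
      rw [hcard, lO, Finset.mul_sum]
      refine Finset.sum_le_sum fun v _ => ?_
      split_ifs with h
      · have h1 : (1 : ℤ) ≤ z v := by exact_mod_cast h
        have h2 : (r v : ℤ) ≤ M := by exact_mod_cast hM v
        nlinarith
      · positivity
    rcases hL with h6 | ⟨h6, h7⟩
    · have := hub 2 hr2
      push_cast at this
      have h8 : (5 : ℤ) ≤ Fintype.card (NL r z) := by exact_mod_cast h6
      omega
    · have := hub 0 (fun v => by rw [h7 v])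
      have h8 : (3 : ℤ) ≤ Fintype.card (NL r z) := by exact_mod_cast h6
      push_cast at this
      omega
  have hOO : l0.1.1 ∈ O ↔ (e l0).1.1 ∈ O := by
    by_contra hcon
    have hkey : (lO O z = lO O z' + 1) ∨ (lO O z' = lO O z + 1) := by
      have := h5 l0
      by_cases hx : l0.1.1 ∈ O <;> by_cases hx' : (e l0).1.1 ∈ O
      · exact absurd ⟨fun _ => hx', fun _ => hx⟩ hcon
      · left; simp only [hx, hx', if_true, if_false] at this; linarith
      · right; simp only [hx, hx', if_true, if_false] at this; linarith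
      · exact absurd ⟨fun h => absurd h hx, fun h => absurd h hx'⟩ hcon
    -- all points where `y` is positive lie in `O` / outside
    rcases hkey with hk | hk
    · have hin : ∀ v, 1 ≤ z v → v ∈ O := by
        intro v hv
        by_contra hv'
        have := h5 ⟨⟨v, ⟨0, by omega⟩⟩, hv⟩
        simp only [hv', if_false] at this
        split_ifs at this <;> linarith
      have hout : ∀ v, 1 ≤ z' v → v ∉ O := by
        intro v hv hv'
        have := h5 (e.symm ⟨⟨v, ⟨0, by omega⟩⟩, hv⟩)
        rw [Equiv.apply_symm_apply] at this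
        simp only [hv', if_true] at this
        split_ifs at this <;> linarith
      have h6 : lO O z' = 0 := by
        unfold lO
        refine Finset.sum_eq_zero fun v hv => ?_
        by_contra hne
        have : z' v ≠ 0 := by intro h; exact hne (by simp [h])
        exact hout v (by omega) hv
      have h7 : lO O z = lO univ z := by
        unfold lO
        refine Finset.sum_subset (Finset.subset_univ _) fun v _ hv => ?_
        by_contra hne
        have : z v ≠ 0 := by intro h; exact hne (by simp [h])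
        exact hv (hin v (by omega))
      omega
    · have hout : ∀ v, 1 ≤ z v → v ∉ O := by
        intro v hv hv'
        have := h5 ⟨⟨v, ⟨0, by omega⟩⟩, hv⟩
        simp only [hv', if_true] at this
        split_ifs at this <;> linarith
      have hin : ∀ v, 1 ≤ z' v → v ∈ O := by
        intro v hv
        by_contra hv'
        have := h5 (e.symm ⟨⟨v, ⟨0, by omega⟩⟩, hv⟩)
        rw [Equiv.apply_symm_apply] at this
        simp only [hv', if_false] at this
        split_ifs at this <;> linarith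
      have h6 : lO O z = 0 := by
        unfold lO
        refine Finset.sum_eq_zero fun v hv => ?_
        by_contra hne
        have : z v ≠ 0 := by intro h; exact hne (by simp [h])
        exact hout v (by omega) hv
      have h7 : lO O z' = lO univ z' := by
        unfold lO
        refine Finset.sum_subset (Finset.subset_univ _) fun v _ hv => ?_
        by_contra hne
        have : z' v ≠ 0 := by intro h; exact hne (by simp [h])
        exact hv (hin v (by omega))
      have := h5u l0
      omega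
  -- conclusion
  obtain ⟨γ, hγ, h⟩ := he l0
  have h6 := qO_low O z l0.1.1 l0.2
  have h7 := qO_low O z' (e l0).1.1 (e l0).2
  rw [h, qO_comp (hO γ hγ), h6, ← hzz l0] at h7
  by_cases hx : l0.1.1 ∈ O
  · have hx' := hOO.1 hx
    simp only [hx, hx', if_true] at h7
    linarith
  · have hx' : (e l0).1.1 ∉ O := fun h => hx (hOO.2 h)
    simp only [hx, hx', if_false] at h7
    linarith

/-! ### Step 2: the signed class function and its lowering identity -/

open scoped Classical in
/-- number of elements of `Γ` turning `y` into `h` -/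
noncomputable def cnt (Γ : Subgroup (Perm C)) (y h : C → ℕ) : ℤ :=
  ∑ γ : Γ, if h = y ∘ (γ : Perm C) then 1 else 0

lemma cnt_ne_zero {y h : C → ℕ} (H : cnt Γ y h ≠ 0) : ∃ γ ∈ Γ, h = y ∘ γ := by
  classical
  by_contra hcon
  push Not at hcon
  apply H
  unfold cnt
  refine Finset.sum_eq_zero fun γ _ => ?_
  rw [if_neg (hcon γ γ.2)]

lemma cnt_self_pos (y : C → ℕ) : 1 ≤ cnt Γ y y := by
  classical
  unfold cnt
  have h1 : (if y = y ∘ (((1 : Γ) : Perm C)) then (1 : ℤ) else 0) = 1 := by simp
  calc (1 : ℤ) = if y = y ∘ (((1 : Γ) : Perm C)) then (1 : ℤ) else 0 := h1.symm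
    _ ≤ _ := Finset.single_le_sum (f := fun γ : Γ => if y = y ∘ (γ : Perm C) then (1 : ℤ) else 0)
      (fun γ _ => by positivity) (Finset.mem_univ 1)

lemma cnt_comp (y h : C → ℕ) {γ₀ : Perm C} (hγ : γ₀ ∈ Γ) : cnt Γ (y ∘ γ₀) h = cnt Γ y h := by
  classical
  unfold cnt
  rw [← Equiv.sum_comp (Equiv.mulLeft (⟨γ₀, hγ⟩ : Γ))
    (fun γ : Γ => if h = y ∘ (γ : Perm C) then (1 : ℤ) else 0)]
  rfl

lemma up_low {g : C → ℕ} {y : C → ℕ} {γ : Perm C} {v : C} :
    up g v = y ∘ γ ↔ 1 ≤ y (γ v) ∧ g = low y (γ v) ∘ γ := by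
  constructor
  · intro h
    have hv := congrFun h v
    simp only [up, Function.update_self, Function.comp] at hv
    refine ⟨by omega, ?_⟩
    funext u
    by_cases hu : u = v
    · subst hu; simp only [low, Function.comp, Function.update_self]; omega
    · have h1 := congrFun h u
      simp only [up, Function.update_of_ne hu, Function.comp] at h1
      have : γ u ≠ γ v := fun h => hu (γ.injective h)
      simp only [low, Function.comp, Function.update_of_ne this, h1]
  · rintro ⟨h1, h2⟩
    funext u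
    by_cases hu : u = v
    · subst hu
      have := congrFun h2 u
      simp only [low, Function.comp, Function.update_self] at this
      simp only [up, Function.update_self, Function.comp]; omega
    · have h3 := congrFun h2 u
      have : γ u ≠ γ v := fun h => hu (γ.injective h)
      simp only [low, Function.comp, Function.update_of_ne this] at h3
      simp only [up, Function.update_of_ne hu, Function.comp, h3]

lemma sum_up_cnt (hr : ∀ γ ∈ Γ, ∀ v, r (γ v) = r v) (y g : C → ℕ) :
    ∑ v, ((g v + 1 + r v : ℕ) : ℤ) * cnt Γ y (up g v)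
      = ∑ l : NL r y, cnt Γ (low y l.1.1) g := by
  classical
  rw [sum_NL r y (fun x => cnt Γ (low y x) g)]
  unfold cnt
  simp only [Finset.mul_sum]
  rw [Finset.sum_comm]
  have h2 : ∀ x : C, (if 1 ≤ y x then
      (y x + r x) • ∑ γ : Γ, (if g = low y x ∘ (γ : Perm C) then (1 : ℤ) else 0) else 0)
      = ∑ γ : Γ, (if 1 ≤ y x ∧ g = low y x ∘ (γ : Perm C) then ((y x + r x : ℕ) : ℤ) else 0) := by
    intro x
    split_ifs with h
    · rw [Finset.smul_sum]
      refine Finset.sum_congr rfl fun γ _ => ?_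
      by_cases h' : g = low y x ∘ (γ : Perm C) <;> simp [h, h']
    · simp [h]
  rw [Finset.sum_congr rfl fun x _ => h2 x, Finset.sum_comm (s := (univ : Finset C))]
  refine Finset.sum_congr rfl fun γ _ => ?_
  rw [← Equiv.sum_comp (γ : Perm C)
    (fun x => if 1 ≤ y x ∧ g = low y x ∘ (γ : Perm C) then ((y x + r x : ℕ) : ℤ) else 0)]
  refine Finset.sum_congr rfl fun v _ => ?_
  by_cases h : up g v = y ∘ (γ : Perm C)
  · have h' := up_low.1 h
    rw [if_pos h, if_pos h']
    have hv := congrFun h v
    simp only [up, Function.update_self, Function.comp] at hv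
    rw [mul_one, hr γ γ.2 v, ← hv]
  · have h' : ¬ (1 ≤ y ((γ : Perm C) v) ∧ g = low y ((γ : Perm C) v) ∘ (γ : Perm C)) :=
      fun h'' => h (up_low.2 h'')
    rw [if_neg h, if_neg h', mul_zero]

/-- the signed class function -/
noncomputable def cc (Γ : Subgroup (Perm C)) (z z' h : C → ℕ) : ℤ := cnt Γ z h - cnt Γ z' h

theorem deck_identity (hr : ∀ γ ∈ Γ, ∀ v, r (γ v) = r v) (hD : AbsDeck Γ r z z') (g : C → ℕ) :
    ∑ v, ((g v + 1 + r v : ℕ) : ℤ) * cc Γ z z' (up g v) = 0 := by
  classical
  obtain ⟨e, he⟩ := hD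
  unfold cc
  simp only [mul_sub, Finset.sum_sub_distrib]
  rw [sum_up_cnt hr z g, sum_up_cnt hr z' g, ← Equiv.sum_comp e, sub_eq_zero]
  refine Finset.sum_congr rfl fun l _ => ?_
  obtain ⟨γ, hγ, h⟩ := he l
  rw [h, cnt_comp _ _ hγ]

/-- the weight -/
def wt (r h : C → ℕ) : ℤ := ∏ v, ((h v + r v).factorial : ℤ)

lemma wt_pos (r h : C → ℕ) : 0 < wt r h := by
  unfold wt
  exact Finset.prod_pos fun v _ => by exact_mod_cast Nat.factorial_pos _

lemma wt_up (r g : C → ℕ) (v : C) : wt r (up g v) = ((g v + 1 + r v : ℕ) : ℤ) * wt r g := by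
  classical
  unfold wt
  rw [← Finset.mul_prod_erase univ _ (Finset.mem_univ v),
    ← Finset.mul_prod_erase univ (fun v => ((g v + r v).factorial : ℤ)) (Finset.mem_univ v)]
  have h1 : ∏ x ∈ univ.erase v, ((up g v x + r x).factorial : ℤ)
      = ∏ x ∈ univ.erase v, ((g x + r x).factorial : ℤ) := by
    refine Finset.prod_congr rfl fun x hx => ?_
    simp only [up, Function.update_of_ne (Finset.ne_of_mem_erase hx)]
  rw [h1]
  have h2 : up g v v + r v = (g v + r v) + 1 := by simp [up]; ring
  rw [h2, Nat.factorial_succ]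
  push_cast; ring

/-- the normalised function -/
noncomputable def bb (Γ : Subgroup (Perm C)) (r z z' h : C → ℕ) : ℤ := cc Γ z z' h * wt r h

theorem bb_identity (hr : ∀ γ ∈ Γ, ∀ v, r (γ v) = r v) (hD : AbsDeck Γ r z z') (g : C → ℕ) :
    ∑ v, bb Γ r z z' (up g v) = 0 := by
  have h := deck_identity hr hD g
  unfold bb
  have : ∀ v, cc Γ z z' (up g v) * wt r (up g v)
      = (((g v + 1 + r v : ℕ) : ℤ) * cc Γ z z' (up g v)) * wt r g := by
    intro v; rw [wt_up]; ring
  rw [Finset.sum_congr rfl fun v _ => this v, ← Finset.sum_mul, h, zero_mul]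

lemma bb_ne_zero {h : C → ℕ} (H : bb Γ r z z' h ≠ 0) :
    (∃ γ ∈ Γ, h = z ∘ γ) ∨ (∃ γ ∈ Γ, h = z' ∘ γ) := by
  by_contra hcon
  push Not at hcon
  apply H
  have h1 : cnt Γ z h = 0 := by
    by_contra h; obtain ⟨γ, hγ, h'⟩ := cnt_ne_zero h; exact hcon.1 γ hγ h'
  have h2 : cnt Γ z' h = 0 := by
    by_contra h; obtain ⟨γ, hγ, h'⟩ := cnt_ne_zero h; exact hcon.2 γ hγ h'
  simp [bb, cc, h1, h2]

lemma bb_self_ne_zero (hne : ∀ γ ∈ Γ, z ≠ z' ∘ γ) : bb Γ r z z' z ≠ 0 := by
  have h1 : cnt Γ z' z = 0 := by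
    by_contra h; obtain ⟨γ, hγ, h'⟩ := cnt_ne_zero h; exact hne γ hγ h'
  have h2 := cnt_self_pos (Γ := Γ) z
  have h3 := wt_pos r z
  unfold bb cc
  rw [h1, sub_zero]
  positivity

lemma bb_qO (O : Finset C) (hO : ∀ γ ∈ Γ, Pres O γ) (hq : qO O z = qO O z') {h : C → ℕ}
    (H : bb Γ r z z' h ≠ 0) : qO O h = qO O z := by
  rcases bb_ne_zero H with ⟨γ, hγ, h'⟩ | ⟨γ, hγ, h'⟩
  · rw [h', qO_comp (hO γ hγ)]
  · rw [h', qO_comp (hO γ hγ), hq]

/-! ### Step 3: the function on permutations, and positivity -/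

/-- the function on permutations -/
noncomputable def BB (Γ : Subgroup (Perm C)) (r z z' : C → ℕ) (σ : Perm C) : ℤ :=
  bb Γ r z z' (z ∘ σ)

lemma BB_stab {τ : Perm C} (hτ : z ∘ τ = z) (σ : Perm C) :
    BB Γ r z z' (τ * σ) = BB Γ r z z' σ := by
  unfold BB
  have : z ∘ (τ * σ : Perm C) = z ∘ σ := by
    funext v
    have := congrFun hτ (σ v)
    simpa [Function.comp] using this
  rw [this]

/-- level `a` inside `O` -/
def lev (O : Finset C) (z : C → ℕ) (a : ℕ) : Finset C := O.filter fun v => z v = a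

lemma mem_lev {O : Finset C} {z : C → ℕ} {a : ℕ} {v : C} : v ∈ lev O z a ↔ v ∈ O ∧ z v = a := by
  simp [lev]

/-- Claim 1 -/
lemma BB_claim1 (hr : ∀ γ ∈ Γ, ∀ v, r (γ v) = r v) (hD : AbsDeck Γ r z z')
    (O : Finset C) (hO : ∀ γ ∈ Γ, Pres O γ) (hq : qO O z = qO O z')
    (hqu : qO univ z = qO univ z') {σ : Perm C} (hσ : Pres O σ) {a : ℕ} {y : C}
    (hy : y ∈ lev O z (a + 1)) :
    BB Γ r z z' σ + ∑ x ∈ lev O z a, BB Γ r z z' (swap x y * σ) = 0 := by
  classical
  obtain ⟨hyO, hya⟩ := mem_lev.1 hy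
  set v := σ.symm y with hv
  have hσv : σ v = y := by simp [hv]
  set g : C → ℕ := low (z ∘ σ) v with hg
  have hid := bb_identity hr hD g
  rw [← Equiv.sum_comp σ.symm] at hid
  have hterm : ∀ x, bb Γ r z z' (up g (σ.symm x)) =
      if x = y then BB Γ r z z' σ else
        if x ∈ lev O z a then BB Γ r z z' (swap x y * σ) else 0 := by
    intro x
    by_cases hxy : x = y
    · subst hxy
      rw [if_pos rfl]
      unfold BB
      congr 1
      funext u
      by_cases hu : u = v
      · subst hu
        simp only [← hv, hg, up, low, Function.update_self, Function.comp, hσv, hya]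
        omega
      · simp only [← hv, hg, up, low, Function.update_of_ne hu]
    · rw [if_neg hxy]
      set u := σ.symm x with hu
      have hσu : σ u = x := by simp [hu]
      have huv : u ≠ v := fun h => hxy (by rw [← hσu, h, hσv])
      have hgu : g u = z x := by
        simp only [hg, low, Function.update_of_ne huv, Function.comp, hσu]
      have hupu : up g u u = z x + 1 := by simp [up, hgu]
      have hupv : up g u v = a := by
        simp only [up, Function.update_of_ne huv.symm, hg, low, Function.update_self,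
          Function.comp, hσv, hya]
        omega
      have hupo : ∀ t, t ≠ u → t ≠ v → up g u t = z (σ t) := by
        intro t h1 h2
        simp only [up, Function.update_of_ne h1, hg, low, Function.update_of_ne h2,
          Function.comp]
      by_cases hx : x ∈ lev O z a
      · rw [if_pos hx]
        obtain ⟨hxO, hxa⟩ := mem_lev.1 hx
        unfold BB
        congr 1
        funext t
        by_cases h1 : t = u
        · subst h1
          rw [hupu, hxa]
          simp [Function.comp, hσu, hya]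
        · by_cases h2 : t = v
          · subst h2
            rw [hupv]
            simp [Function.comp, hσv, hxa]
          · rw [hupo t h1 h2]
            have h3 : σ t ≠ x := fun h => h1 (by rw [← hσu] at h; exact σ.injective h)
            have h4 : σ t ≠ y := fun h => h2 (by rw [← hσv] at h; exact σ.injective h)
            simp only [Function.comp, Perm.mul_apply, swap_apply_of_ne_of_ne h3 h4]
      · rw [if_neg hx]
        by_contra hne
        have hvO : v ∈ O := (hσ v).1 (by rw [hσv]; exact hyO)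
        have huO : u ∈ O ↔ x ∈ O := by rw [← hσ u, hσu]
        -- compare the quadratic invariants
        have key : ∀ P : Finset C, v ∈ P → Pres P σ → qO P (up g u) = qO P z →
            2 * (a : ℤ) + 1 = if u ∈ P then 2 * (z x : ℤ) + 1 else 0 := by
          intro P hvP hP h
          have h0 : qO P z = qO P (z ∘ σ) := (qO_comp hP z).symm
          rw [h0] at h
          unfold qO at h
          have e1 : ∀ t ∈ P, ((up g u t : ℕ) : ℤ) ^ 2 = (((z ∘ σ) t : ℕ) : ℤ) ^ 2
              + (if t = u then 2 * (z x : ℤ) + 1 else 0)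
              - (if t = v then 2 * (a : ℤ) + 1 else 0) := by
            intro t _
            by_cases h1 : t = u
            · rw [h1, hupu, if_pos rfl, if_neg huv]
              simp only [Function.comp, hσu]; push_cast; ring
            · by_cases h2 : t = v
              · rw [h2, hupv, if_neg huv.symm, if_pos rfl]
                simp only [Function.comp, hσv, hya]; push_cast; ring
              · rw [hupo t h1 h2, if_neg h1, if_neg h2]; simp
          rw [Finset.sum_congr rfl e1, Finset.sum_sub_distrib, Finset.sum_add_distrib,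
            Finset.sum_ite_eq' P u, Finset.sum_ite_eq' P v, if_pos hvP] at h
          linarith
        have h1 := key univ (Finset.mem_univ _) (pres_univ σ)
          (bb_qO univ (fun γ _ => pres_univ γ) hqu hne)
        have h2 := key O hvO hσ (bb_qO O hO hq hne)
        rw [if_pos (Finset.mem_univ _)] at h1
        have hxa : z x = a := by
          have : (z x : ℤ) = a := by linarith
          exact_mod_cast this
        have huO' : u ∈ O := by
          by_contra hcon
          rw [if_neg hcon] at h2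
          have : (0 : ℤ) ≤ a := by positivity
          linarith
        exact hx (mem_lev.2 ⟨huO.1 huO', hxa⟩)
  rw [Finset.sum_congr rfl fun x _ => hterm x] at hid
  have hyn : y ∉ lev O z a := by
    intro h
    have := (mem_lev.1 h).2
    omega
  rw [← Finset.add_sum_erase univ _ (Finset.mem_univ y), if_pos rfl] at hid
  rw [← hid]
  congr 1
  rw [← Finset.sum_subset (s₁ := lev O z a) (s₂ := univ.erase y)]
  · refine Finset.sum_congr rfl fun x hx => ?_
    have : x ≠ y := fun h => hyn (h ▸ hx)
    rw [if_neg this, if_pos hx]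
  · intro x hx
    exact Finset.mem_erase.2 ⟨fun h => hyn (h ▸ hx), Finset.mem_univ _⟩
  · intro x hx hx'
    rw [if_neg (Finset.ne_of_mem_erase hx), if_neg hx']

open scoped Classical in
/-- permutations preserving `O` -/
noncomputable def SO (O : Finset C) : Finset (Perm C) := univ.filter fun σ => Pres O σ

lemma mem_SO {O : Finset C} {σ : Perm C} : σ ∈ SO O ↔ Pres O σ := by
  simp [SO]

lemma pres_mul {O : Finset C} {σ τ : Perm C} (hσ : Pres O σ) (hτ : Pres O τ) :
    Pres O (σ * τ) := fun v => by rw [Perm.mul_apply, hσ, hτ]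

lemma pres_swap {O : Finset C} {x y : C} (hx : x ∈ O) (hy : y ∈ O) : Pres O (swap x y) := by
  intro v
  by_cases h1 : v = x
  · subst h1; simp [hx, hy]
  · by_cases h2 : v = y
    · subst h2; simp [hx, hy]
    · rw [swap_apply_of_ne_of_ne h1 h2]

lemma sum_SO_swap {O : Finset C} {x y : C} (hx : x ∈ O) (hy : y ∈ O) (F : Perm C → ℤ) :
    ∑ σ ∈ SO O, F (swap x y * σ) = ∑ σ ∈ SO O, F σ := by
  classical
  refine Finset.sum_nbij' (fun σ => swap x y * σ) (fun σ => swap x y * σ) ?_ ?_ ?_ ?_ ?_
  · intro σ hσ; exact mem_SO.2 (pres_mul (pres_swap hx hy) (mem_SO.1 hσ))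
  · intro σ hσ; exact mem_SO.2 (pres_mul (pres_swap hx hy) (mem_SO.1 hσ))
  · intro σ _; rw [← mul_assoc, swap_mul_self, one_mul]
  · intro σ _; rw [← mul_assoc, swap_mul_self, one_mul]
  · intro σ _; rfl

/-- Claim 2: positivity. -/
lemma BB_claim2 (O : Finset C) {a : ℕ} {x₀ : C} (hx₀ : x₀ ∈ lev O z a) :
    0 ≤ ∑ σ ∈ SO O, (BB Γ r z z' σ * BB Γ r z z' σ
      + ∑ y ∈ lev O z (a + 1), BB Γ r z z' (swap x₀ y * σ) * BB Γ r z z' σ) := by
  classical
  obtain ⟨hxO, hxa⟩ := mem_lev.1 hx₀
  set B := BB Γ r z z' with hB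
  set E : Perm C → ℤ := fun σ => B σ + ∑ y ∈ lev O z (a + 1), B (swap x₀ y * σ) with hE
  have hswapx : ∀ y ∈ lev O z (a + 1), y ≠ x₀ := by
    intro y hy h
    have := (mem_lev.1 hy).2
    rw [h, hxa] at this
    omega
  -- E is invariant
  have hEinv : ∀ y₁ ∈ lev O z (a + 1), ∀ σ, E (swap x₀ y₁ * σ) = E σ := by
    intro y₁ hy₁ σ
    simp only [hE]
    rw [← Finset.add_sum_erase _ _ hy₁, ← Finset.add_sum_erase _ (fun y => B (swap x₀ y * σ)) hy₁]
    rw [← mul_assoc (swap x₀ y₁) (swap x₀ y₁) σ, swap_mul_self, one_mul]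
    have : ∀ y ∈ (lev O z (a + 1)).erase y₁, B (swap x₀ y * (swap x₀ y₁ * σ))
        = B (swap x₀ y * σ) := by
      intro y hy
      have hyy : y ≠ y₁ := Finset.ne_of_mem_erase hy
      have hy' := Finset.mem_of_mem_erase hy
      have h1 : swap x₀ y * swap x₀ y₁ = swap y₁ y * swap x₀ y := by
        have hx1 := hswapx y₁ hy₁
        have hx2 := hswapx y hy'
        ext t
        simp only [Perm.mul_apply]
        by_cases ht : t = x₀
        · subst ht
          rw [swap_apply_left, swap_apply_left, swap_apply_of_ne_of_ne hx1 hyy.symm,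
            swap_apply_right]
        · by_cases ht1 : t = y₁
          · subst ht1
            rw [swap_apply_right, swap_apply_left, swap_apply_of_ne_of_ne hx1 hyy.symm,
              swap_apply_left]
          · by_cases ht2 : t = y
            · subst ht2
              rw [swap_apply_of_ne_of_ne ht ht1, swap_apply_right,
                swap_apply_of_ne_of_ne hx1.symm (Ne.symm ht)]
            · rw [swap_apply_of_ne_of_ne ht ht1, swap_apply_of_ne_of_ne ht ht2,
                swap_apply_of_ne_of_ne ht1 ht2]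
      rw [← mul_assoc, h1, mul_assoc]
      apply BB_stab
      funext t
      simp only [Function.comp]
      by_cases h2 : t = y₁
      · subst h2
        rw [swap_apply_left, (mem_lev.1 hy').2, (mem_lev.1 hy₁).2]
      · by_cases h3 : t = y
        · subst h3
          rw [swap_apply_right, (mem_lev.1 hy').2, (mem_lev.1 hy₁).2]
        · rw [swap_apply_of_ne_of_ne h2 h3]
    rw [Finset.sum_congr rfl this]
    ring
  have hsq : ∑ σ ∈ SO O, E σ * E σ
      = (1 + (lev O z (a + 1)).card : ℤ) * ∑ σ ∈ SO O, E σ * B σ := by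
    have h1 : ∀ σ ∈ SO O, E σ * E σ
        = E σ * B σ + ∑ y ∈ lev O z (a + 1), E σ * B (swap x₀ y * σ) := by
      intro σ _
      conv_lhs => rw [show E σ * E σ = E σ * (B σ + ∑ y ∈ lev O z (a + 1), B (swap x₀ y * σ))
        from rfl]
      rw [mul_add, Finset.mul_sum]
    rw [Finset.sum_congr rfl h1, Finset.sum_add_distrib, Finset.sum_comm]
    have h2 : ∀ y ∈ lev O z (a + 1), ∑ σ ∈ SO O, E σ * B (swap x₀ y * σ)
        = ∑ σ ∈ SO O, E σ * B σ := by
      intro y hy
      rw [← sum_SO_swap hxO (mem_lev.1 hy).1 (fun σ => E σ * B σ)]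
      refine Finset.sum_congr rfl fun σ _ => ?_
      rw [hEinv y hy σ]
    rw [Finset.sum_congr rfl h2, Finset.sum_const, nsmul_eq_mul]
    ring
  have hpos : 0 ≤ ∑ σ ∈ SO O, E σ * E σ :=
    Finset.sum_nonneg fun σ _ => mul_self_nonneg _
  rw [hsq] at hpos
  have hfin : 0 ≤ ∑ σ ∈ SO O, E σ * B σ := by
    by_contra hcon
    push Not at hcon
    have : (0 : ℤ) < 1 + (lev O z (a + 1)).card := by positivity
    nlinarith
  refine le_of_le_of_eq hfin (Finset.sum_congr rfl fun σ _ => ?_)
  simp only [hE]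
  rw [add_mul, Finset.sum_mul]

/-- The structure theorem: level sizes on every invariant set are non-increasing. -/
theorem levels_antitone (hr : ∀ γ ∈ Γ, ∀ v, r (γ v) = r v) (hr2 : ∀ v, r v ≤ 2)
    (hD : AbsDeck Γ r z z')
    (hL : 5 ≤ Fintype.card (NL r z) ∨ (3 ≤ Fintype.card (NL r z) ∧ ∀ v, r v = 0))
    (hne : ∀ γ ∈ Γ, z ≠ z' ∘ γ)
    (O : Finset C) (hO : ∀ γ ∈ Γ, Pres O γ) (a : ℕ) :
    (lev O z (a + 1)).card ≤ (lev O z a).card := by
  classical
  have hq := qO_eq hr hr2 hD hL O hO
  have hqu := qO_eq hr hr2 hD hL univ (fun γ _ => pres_univ γ)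
  set B := BB Γ r z z' with hB
  set S : ℤ := ∑ σ ∈ SO O, B σ * B σ with hS
  have hSpos : 0 < S := by
    have h1 : (1 : Perm C) ∈ SO O := mem_SO.2 fun v => by simp
    have h2 : B 1 ≠ 0 := by
      have := bb_self_ne_zero (r := r) hne
      simpa [hB, BB] using this
    have h3 : 0 < B 1 * B 1 := mul_self_pos.2 h2
    exact lt_of_lt_of_le h3
      (Finset.single_le_sum (f := fun σ => B σ * B σ) (fun σ _ => mul_self_nonneg _) h1)
  -- double sum
  have hA : ∀ y ∈ lev O z (a + 1),
      ∑ x ∈ lev O z a, ∑ σ ∈ SO O, B (swap x y * σ) * B σ = - S := by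
    intro y hy
    rw [Finset.sum_comm, hS, ← Finset.sum_neg_distrib]
    refine Finset.sum_congr rfl fun σ hσ => ?_
    have := BB_claim1 hr hD O hO hq hqu (mem_SO.1 hσ) hy
    rw [← Finset.sum_mul]
    have h2 : ∑ x ∈ lev O z a, B (swap x y * σ) = - B σ := by linarith
    rw [h2]; ring
  have hC : ∀ x ∈ lev O z a,
      0 ≤ S + ∑ y ∈ lev O z (a + 1), ∑ σ ∈ SO O, B (swap x y * σ) * B σ := by
    intro x hx
    have := BB_claim2 (Γ := Γ) (r := r) (z := z) (z' := z') O hx
    rw [Finset.sum_add_distrib, Finset.sum_comm] at this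
    exact this
  have h1 : 0 ≤ ∑ x ∈ lev O z a, (S + ∑ y ∈ lev O z (a + 1), ∑ σ ∈ SO O,
      B (swap x y * σ) * B σ) := Finset.sum_nonneg hC
  rw [Finset.sum_add_distrib, Finset.sum_const, Finset.sum_comm, Finset.sum_congr rfl hA,
    Finset.sum_const, nsmul_eq_mul, nsmul_eq_mul] at h1
  have h2 : ((lev O z (a + 1)).card : ℤ) ≤ (lev O z a).card := by
    by_contra hcon
    push Not at hcon
    nlinarith
  exact_mod_cast h2

end deck

end Pool.Agent.Helper63.EV
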