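import Mathlib
import Pool.Agent.Helper63.EV.Abs

set_option autoImplicit false
set_option linter.unusedSectionVars false

namespace Pool.Agent.Helper63.EV

open Finset Equiv

variable {C : Type*} [Fintype C] [DecidableEq C]

lemma lev_antitone {O : Finset C} {z : C → ℕ}
    (h : ∀ a, (lev O z (a + 1)).card ≤ (lev O z a).card) {a b : ℕ} (hab : a ≤ b) :
    (lev O z b).card ≤ (lev O z a).card := by
  induction b, hab using Nat.le_induction with
  | base => exact le_refl _
  | succ n _ ih => exact (h n).trans ih

/-- Chebyshev: the total is at most half of (largest value) times (number of points). -/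
lemma total_le {O : Finset C} {z : C → ℕ}
    (h : ∀ a, (lev O z (a + 1)).card ≤ (lev O z a).card) {M : ℕ} (hM : ∀ v ∈ O, z v ≤ M) :
    2 * ∑ v ∈ O, z v ≤ M * O.card := by
  classical
  have hmap : ∀ v ∈ O, z v ∈ Finset.range (M + 1) := fun v hv =>
    Finset.mem_range.2 (Nat.lt_succ_of_le (hM v hv))
  have h1 : ∑ v ∈ O, z v = ∑ a ∈ Finset.range (M + 1), a * (lev O z a).card := by
    rw [← Finset.sum_fiberwise_of_maps_to hmap]
    refine Finset.sum_congr rfl fun a _ => ?_
    rw [show (O.filter fun v => z v = a) = lev O z a from rfl]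
    rw [Finset.sum_congr rfl (fun v hv => (mem_lev.1 hv).2), Finset.sum_const, smul_eq_mul,
      mul_comm]
  have h2 : O.card = ∑ a ∈ Finset.range (M + 1), (lev O z a).card :=
    Finset.card_eq_sum_card_fiberwise hmap
  have h3 : AntivaryOn (fun a : ℕ => a) (fun a => (lev O z a).card)
      (Finset.range (M + 1) : Set ℕ) := by
    intro a _ b _ hab
    by_contra hcon
    push Not at hcon
    have := lev_antitone h hcon.le
    simp only at hab
    omega
  have h4 := h3.card_mul_sum_le_sum_mul_sum
  simp only [Finset.card_range] at h4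
  have h5 := Finset.sum_range_id_mul_two (M + 1)
  rw [← h1, ← h2] at h4
  have h6 : (M + 1) * (2 * ∑ v ∈ O, z v) ≤ (M + 1) * (M * O.card) := by
    calc (M + 1) * (2 * ∑ v ∈ O, z v) = 2 * ((M + 1) * ∑ v ∈ O, z v) := by ring
      _ ≤ 2 * ((∑ a ∈ Finset.range (M + 1), a) * O.card) := Nat.mul_le_mul_left 2 h4
      _ = ((∑ a ∈ Finset.range (M + 1), a) * 2) * O.card := by ring
      _ = (M + 1) * (M * O.card) := by rw [h5]; simp; ring
  exact Nat.le_of_mul_le_mul_left h6 (Nat.succ_pos M)

/-- there are more points than the largest value -/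
lemma max_lt_card {O : Finset C} {z : C → ℕ}
    (h : ∀ a, (lev O z (a + 1)).card ≤ (lev O z a).card) {v : C} (hv : v ∈ O) :
    z v < O.card := by
  classical
  have h1 : ∀ a ∈ Finset.range (z v + 1), 1 ≤ (lev O z a).card := by
    intro a ha
    have h2 : a ≤ z v := Nat.lt_succ_iff.1 (Finset.mem_range.1 ha)
    have h3 : 1 ≤ (lev O z (z v)).card := Finset.card_pos.2 ⟨v, mem_lev.2 ⟨hv, rfl⟩⟩
    exact h3.trans (lev_antitone h h2)
  have h2 : ∑ a ∈ Finset.range (z v + 1), (lev O z a).card ≤ O.card := by
    have h3 : (O.filter fun u => z u ∈ Finset.range (z v + 1)).card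
        = ∑ a ∈ Finset.range (z v + 1), (lev O z a).card := by
      have h4 := Finset.card_eq_sum_card_fiberwise
        (s := O.filter fun u => z u ∈ Finset.range (z v + 1))
        (f := z) (t := Finset.range (z v + 1)) (fun u hu => (Finset.mem_filter.1 hu).2)
      rw [h4]
      refine Finset.sum_congr rfl fun a ha => ?_
      congr 1
      ext u
      simp only [Finset.mem_filter, lev]
      constructor
      · rintro ⟨⟨h1, _⟩, h2⟩; exact ⟨h1, h2⟩
      · rintro ⟨h1, h2⟩; exact ⟨⟨h1, h2 ▸ ha⟩, h2⟩
    rw [← h3]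
    exact Finset.card_filter_le _ _
  have h3 : z v + 1 ≤ ∑ a ∈ Finset.range (z v + 1), (lev O z a).card := by
    calc z v + 1 = ∑ a ∈ Finset.range (z v + 1), 1 := by simp
      _ ≤ _ := Finset.sum_le_sum h1
  omega

lemma total_le_choose {O : Finset C} {z : C → ℕ}
    (h : ∀ a, (lev O z (a + 1)).card ≤ (lev O z a).card) :
    2 * ∑ v ∈ O, z v ≤ (O.card - 1) * O.card :=
  total_le h fun _ hv => Nat.le_sub_one_of_lt (max_lt_card h hv)

/-! ### Words -/

section words

lemma up_low_self {h : C → ℕ} {v : C} (hv : 1 ≤ h v) : up (low h v) v = h := by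
  funext u
  by_cases hu : u = v
  · subst hu; simp only [up, low, Function.update_self]; omega
  · simp only [up, low, Function.update_of_ne hu]

lemma low_up_self (g : C → ℕ) (v : C) : low (up g v) v = g := by
  funext u
  by_cases hu : u = v
  · subst hu; simp only [up, low, Function.update_self]; omega
  · simp only [up, low, Function.update_of_ne hu]

lemma lev_card_low (y : C → ℕ) (x : C) (a : ℕ) :
    ((lev univ (low y x) a).card : ℤ) = (lev univ y a).card
      + ((if y x - 1 = a then 1 else 0) - (if y x = a then 1 else 0)) := by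
  classical
  have h := sum_low univ y x (fun _ n => if n = a then (1 : ℤ) else 0)
  simp only [Finset.mem_univ, if_true] at h
  simp only [lev, Finset.card_filter]
  push_cast
  exact h

lemma lev_card_comp (f : C → ℕ) (σ : Perm C) (a : ℕ) :
    (lev univ (f ∘ σ) a).card = (lev univ f a).card := by
  classical
  have h := sum_comp_pres (pres_univ σ) (fun v => if f v = a then (1 : ℕ) else 0)
  simp only [lev, Finset.card_filter]
  exact h

variable {Γ : Subgroup (Perm C)} {r z z' : C → ℕ}

/-- The contents of `z` and `z'` agree. -/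
theorem content_eq (hr : ∀ γ ∈ Γ, ∀ v, r (γ v) = r v) (hr2 : ∀ v, r v ≤ 2)
    (hD : AbsDeck Γ r z z')
    (hL : 5 ≤ Fintype.card (NL r z) ∨ (3 ≤ Fintype.card (NL r z) ∧ ∀ v, r v = 0)) (a : ℕ) :
    (lev univ z' a).card = (lev univ z a).card := by
  classical
  have hqu := qO_eq hr hr2 hD hL univ (fun γ _ => pres_univ γ)
  obtain ⟨e, he⟩ := hD
  have hpos : 0 < Fintype.card (NL r z) := by omega
  obtain ⟨l0⟩ : Nonempty (NL r z) := Fintype.card_pos_iff.1 hpos
  obtain ⟨γ, hγ, h⟩ := he l0
  have h2 := qO_low univ z l0.1.1 l0.2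
  have h3 := qO_low univ z' (e l0).1.1 (e l0).2
  rw [h, qO_comp (pres_univ γ), h2, hqu] at h3
  simp only [Finset.mem_univ, if_true] at h3
  have hzz : z l0.1.1 = z' (e l0).1.1 := by
    have : (z l0.1.1 : ℤ) = z' (e l0).1.1 := by linarith
    exact_mod_cast this
  have h4 := lev_card_low z l0.1.1 a
  have h5 := lev_card_low z' (e l0).1.1 a
  rw [h, lev_card_comp, h4, hzz] at h5
  have : ((lev univ z' a).card : ℤ) = (lev univ z a).card := by linarith
  exact_mod_cast this

open scoped Classical in
/-- the words equivalent to `z` or `z'` -/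
noncomputable def WW (Γ : Subgroup (Perm C)) (z z' : C → ℕ) : Finset (C → ℕ) :=
  (univ.image fun γ : Γ => z ∘ (γ : Perm C)) ∪ (univ.image fun γ : Γ => z' ∘ (γ : Perm C))

lemma bb_mem_WW {h : C → ℕ} (H : bb Γ r z z' h ≠ 0) : h ∈ WW Γ z z' := by
  classical
  rcases bb_ne_zero H with ⟨γ, hγ, h'⟩ | ⟨γ, hγ, h'⟩
  · exact Finset.mem_union_left _ (Finset.mem_image.2 ⟨⟨γ, hγ⟩, Finset.mem_univ _, h'.symm⟩)
  · exact Finset.mem_union_right _ (Finset.mem_image.2 ⟨⟨γ, hγ⟩, Finset.mem_univ _, h'.symm⟩)

lemma mem_WW {h : C → ℕ} (H : h ∈ WW Γ z z') :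
    (∃ γ : Perm C, h = z ∘ γ) ∨ (∃ γ : Perm C, h = z' ∘ γ) := by
  classical
  rcases Finset.mem_union.1 H with h1 | h1
  · obtain ⟨γ, _, h2⟩ := Finset.mem_image.1 h1; exact Or.inl ⟨γ, h2.symm⟩
  · obtain ⟨γ, _, h2⟩ := Finset.mem_image.1 h1; exact Or.inr ⟨γ, h2.symm⟩

lemma WW_content (hc : ∀ a, (lev univ z' a).card = (lev univ z a).card) {h : C → ℕ}
    (H : h ∈ WW Γ z z') (a : ℕ) : (lev univ h a).card = (lev univ z a).card := by
  rcases mem_WW H with ⟨γ, h1⟩ | ⟨γ, h1⟩
  · rw [h1, lev_card_comp]
  · rw [h1, lev_card_comp, hc]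

lemma WW_card : (WW Γ z z').card ≤ 2 * Nat.card Γ := by
  classical
  unfold WW
  refine (Finset.card_union_le _ _).trans ?_
  have h1 : (univ.image fun γ : Γ => z ∘ (γ : Perm C)).card ≤ Nat.card Γ := by
    rw [Nat.card_eq_fintype_card]; exact Finset.card_image_le
  have h2 : (univ.image fun γ : Γ => z' ∘ (γ : Perm C)).card ≤ Nat.card Γ := by
    rw [Nat.card_eq_fintype_card]; exact Finset.card_image_le
  omega

lemma qO_up (g : C → ℕ) (u : C) : qO univ (up g u) = qO univ g + (2 * (g u : ℤ) + 1) := by
  have h1 : 1 ≤ up g u u := by simp [up]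
  have h2 := qO_low univ (up g u) u h1
  rw [low_up_self] at h2
  simp only [Finset.mem_univ, if_true, up, Function.update_self] at h2
  push_cast at h2
  unfold up
  linarith

/-- weighted raising identity -/
lemma bb_weighted (hr : ∀ γ ∈ Γ, ∀ v, r (γ v) = r v) (hD : AbsDeck Γ r z z')
    (hq : qO univ z = qO univ z') (g : C → ℕ) :
    ∑ v, ((g v : ℤ) + 1) * bb Γ r z z' (up g v) = 0 := by
  classical
  by_cases hall : ∀ v, bb Γ r z z' (up g v) = 0
  · exact Finset.sum_eq_zero fun v _ => by rw [hall v, mul_zero]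
  push Not at hall
  obtain ⟨u, hu⟩ := hall
  have hu2 := bb_qO univ (fun γ _ => pres_univ γ) hq hu
  have : ∀ v ∈ (univ : Finset C), ((g v : ℤ) + 1) * bb Γ r z z' (up g v)
      = ((g u : ℤ) + 1) * bb Γ r z z' (up g v) := by
    intro v _
    by_cases hv : bb Γ r z z' (up g v) = 0
    · rw [hv, mul_zero, mul_zero]
    · have hv2 := bb_qO univ (fun γ _ => pres_univ γ) hq hv
      rw [qO_up] at hv2 hu2
      have : (g v : ℤ) = g u := by linarith
      rw [this]
  rw [Finset.sum_congr rfl this, ← Finset.mul_sum, bb_identity hr hD g, mul_zero]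

/-- The kernel `∏_{v ∈ U} C(h v, y v) ∏_{v ∉ U} [h v = y v]`. -/
def ker (U : Finset C) (y h : C → ℕ) : ℤ :=
  ∏ v, if v ∈ U then ((h v).choose (y v) : ℤ) else if h v = y v then 1 else 0

lemma ker_eq_zero_of_lt {U : Finset C} {y h : C → ℕ} {v : C} (hv : h v < y v) :
    ker U y h = 0 := by
  classical
  unfold ker
  refine Finset.prod_eq_zero (Finset.mem_univ v) ?_
  split_ifs with h1 h2
  · rw [Nat.choose_eq_zero_of_lt hv]; rfl
  · omega
  · rfl

lemma ker_self (U : Finset C) (y : C → ℕ) : ker U y y = 1 := by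
  classical
  unfold ker
  refine Finset.prod_eq_one fun v _ => ?_
  by_cases h1 : v ∈ U
  · rw [if_pos h1]; simp
  · rw [if_neg h1, if_pos rfl]

/-- one-step relation for the kernel -/
lemma ker_low (U : Finset C) (y h : C → ℕ) (u : C) :
    (h u : ℤ) * ker U y (low h u) =
      if u ∈ U then ((h u : ℤ) - y u) * ker U y h
      else ((y u : ℤ) + 1) * ker U (up y u) h := by
  classical
  have hprod : ∀ y' h' : C → ℕ, ker U y' h' =
      (if u ∈ U then ((h' u).choose (y' u) : ℤ) else if h' u = y' u then 1 else 0) *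
      ∏ v ∈ univ.erase u, (if v ∈ U then ((h' v).choose (y' v) : ℤ)
        else if h' v = y' v then 1 else 0) := by
    intro y' h'
    unfold ker
    rw [← Finset.mul_prod_erase univ _ (Finset.mem_univ u)]
  have e1 : ∏ v ∈ univ.erase u, (if v ∈ U then ((low h u v).choose (y v) : ℤ)
        else if low h u v = y v then 1 else 0)
      = ∏ v ∈ univ.erase u, (if v ∈ U then ((h v).choose (y v) : ℤ)
        else if h v = y v then 1 else 0) :=
    Finset.prod_congr rfl fun v hv => by
      simp only [low, Function.update_of_ne (Finset.ne_of_mem_erase hv)]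
  have e2 : ∏ v ∈ univ.erase u, (if v ∈ U then ((h v).choose (up y u v) : ℤ)
        else if h v = up y u v then 1 else 0)
      = ∏ v ∈ univ.erase u, (if v ∈ U then ((h v).choose (y v) : ℤ)
        else if h v = y v then 1 else 0) :=
    Finset.prod_congr rfl fun v hv => by
      simp only [up, Function.update_of_ne (Finset.ne_of_mem_erase hv)]
  rw [hprod y (low h u), e1]
  by_cases hu : u ∈ U
  · rw [if_pos hu, if_pos hu, hprod y h, if_pos hu, ← mul_assoc, ← mul_assoc]
    congr 1
    simp only [low, Function.update_self]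
    rcases Nat.eq_zero_or_pos (h u) with h0 | h0
    · rw [h0]
      rcases Nat.eq_zero_or_pos (y u) with h1 | h1
      · simp [h1]
      · rw [Nat.choose_eq_zero_of_lt h1]; simp
    · obtain ⟨n, hn⟩ : ∃ n, h u = n + 1 := ⟨h u - 1, by omega⟩
      rw [hn, Nat.add_sub_cancel]
      by_cases hny : y u ≤ n
      · have h2 := Nat.choose_mul_succ_eq n (y u)
        have h3 : ((n.choose (y u) * (n + 1) : ℕ) : ℤ) = (((n + 1).choose (y u) * (n + 1 - y u) : ℕ) : ℤ) := by
          exact_mod_cast h2
        push_cast [Nat.cast_sub (show y u ≤ n + 1 by omega)] at h3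
        push_cast
        linarith
      · push Not at hny
        rw [Nat.choose_eq_zero_of_lt hny]
        rcases Nat.lt_or_ge (n + 1) (y u) with h4 | h4
        · rw [Nat.choose_eq_zero_of_lt h4]; simp
        · have : y u = n + 1 := by omega
          rw [this]; simp
  · rw [if_neg hu, if_neg hu, hprod (up y u) h, if_neg hu, e2, ← mul_assoc, ← mul_assoc]
    congr 1
    simp only [low, up, Function.update_self]
    by_cases h1 : h u = y u + 1
    · rw [if_pos (by omega), if_pos h1, h1]; push_cast; ring
    · rw [if_neg h1]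
      by_cases h2 : h u - 1 = y u
      · have : h u = 0 := by omega
        rw [this]; simp
      · rw [if_neg h2]; simp

/-- Vanishing statistics. -/
theorem kill (hr : ∀ γ ∈ Γ, ∀ v, r (γ v) = r v) (hD : AbsDeck Γ r z z')
    (hq : qO univ z = qO univ z') (hc : ∀ a, (lev univ z' a).card = (lev univ z a).card)
    (hK : ∑ v, z' v = ∑ v, z v) (p : ℕ) (U : Finset C)
    (hU : (univ.filter fun v => z v < p).card < U.card) :
    ∀ (n : ℕ) (y : C → ℕ), (∀ v ∈ U, y v < p) → ∑ v, z v ≤ n + ∑ v, y v →
      ∑ h ∈ WW Γ z z', bb Γ r z z' h * ker U y h = 0 := by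
  classical
  have hsumW : ∀ h ∈ WW Γ z z', ∑ v, h v = ∑ v, z v := by
    intro h hh
    rcases mem_WW hh with ⟨γ, h1⟩ | ⟨γ, h1⟩
    · rw [h1]; exact Equiv.sum_comp γ z
    · rw [h1, ← hK]; exact Equiv.sum_comp γ z'
  have hlow : ∀ h ∈ WW Γ z z', (univ.filter fun v => h v < p).card
      = (univ.filter fun v => z v < p).card := by
    intro h hh
    have e1 : ∀ f : C → ℕ, (univ.filter fun v => f v < p).card
        = ∑ a ∈ Finset.range p, (lev univ f a).card := by
      intro f
      rw [Finset.card_eq_sum_card_fiberwise (s := univ.filter fun v => f v < p) (f := f)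
        (t := Finset.range p) (fun v hv => by
          have := (Finset.mem_filter.1 hv).2
          exact Finset.mem_coe.2 (Finset.mem_range.2 this))]
      refine Finset.sum_congr rfl fun a ha => ?_
      congr 1
      ext v
      simp only [Finset.mem_filter, lev, Finset.mem_univ, true_and]
      have := Finset.mem_range.1 ha
      constructor
      · rintro ⟨_, h2⟩; exact h2
      · intro h2; exact ⟨by omega, h2⟩
    rw [e1, e1]
    exact Finset.sum_congr rfl fun a _ => WW_content hc hh a
  have hbig : ∀ y : C → ℕ, (∀ v ∈ U, y v < p) → ∀ h ∈ WW Γ z z', h ≠ y := by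
    rintro y hy h hh rfl
    have h1 := hlow h hh
    have h2 : U ⊆ univ.filter fun v => h v < p := fun v hv =>
      Finset.mem_filter.2 ⟨Finset.mem_univ _, hy v hv⟩
    have := Finset.card_le_card h2
    omega
  intro n
  induction n with
  | zero =>
    intro y hy hle
    refine Finset.sum_eq_zero fun h hh => ?_
    have h1 : ∃ v, h v < y v := by
      by_contra hcon
      push Not at hcon
      have h2 : ∑ v, y v ≤ ∑ v, h v := Finset.sum_le_sum fun v _ => hcon v
      have h3 := hsumW h hh
      have h4 : ∑ v, y v = ∑ v, h v := by omega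
      have h5 : ∀ v ∈ (univ : Finset C), y v = h v :=
        (Finset.sum_eq_sum_iff_of_le fun v _ => hcon v).1 h4
      exact hbig y hy h hh (funext fun v => (h5 v (Finset.mem_univ v)).symm)
    obtain ⟨v, hv⟩ := h1
    rw [ker_eq_zero_of_lt hv, mul_zero]
  | succ n ih =>
    intro y hy hle
    by_cases hlt : ∑ v, z v ≤ n + ∑ v, y v
    · exact ih y hy hlt
    push Not at hlt
    -- pairing of the identity with the kernel
    set R : Finset (C → ℕ) := (WW Γ z z').biUnion fun h => univ.image fun u => low h u with hR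
    have h0 : ∑ g ∈ R, ker U y g * ∑ u, ((g u : ℤ) + 1) * bb Γ r z z' (up g u) = 0 :=
      Finset.sum_eq_zero fun g _ => by rw [bb_weighted hr hD hq g, mul_zero]
    have h1 : ∑ g ∈ R, ker U y g * ∑ u, ((g u : ℤ) + 1) * bb Γ r z z' (up g u)
        = ∑ u, ∑ h ∈ WW Γ z z', bb Γ r z z' h * ((h u : ℤ) * ker U y (low h u)) := by
      simp only [Finset.mul_sum]
      rw [Finset.sum_comm]
      refine Finset.sum_congr rfl fun u _ => ?_
      have e2 : ∑ h ∈ WW Γ z z', bb Γ r z z' h * ((h u : ℤ) * ker U y (low h u))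
          = ∑ h ∈ (WW Γ z z').filter (fun h => 1 ≤ h u),
            bb Γ r z z' h * ((h u : ℤ) * ker U y (low h u)) := by
        symm
        refine Finset.sum_subset (Finset.filter_subset _ _) fun h hh hh' => ?_
        have : h u = 0 := by
          by_contra hne
          exact hh' (Finset.mem_filter.2 ⟨hh, by omega⟩)
        rw [this]; simp
      have e3 : ∑ g ∈ R, ker U y g * (((g u : ℤ) + 1) * bb Γ r z z' (up g u))
          = ∑ g ∈ R.filter (fun g => up g u ∈ WW Γ z z'),
            ker U y g * (((g u : ℤ) + 1) * bb Γ r z z' (up g u)) := by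
        symm
        refine Finset.sum_subset (Finset.filter_subset _ _) fun g hg hg' => ?_
        have : bb Γ r z z' (up g u) = 0 := by
          by_contra hne
          exact hg' (Finset.mem_filter.2 ⟨hg, bb_mem_WW hne⟩)
        rw [this]; simp
      rw [e2, e3]
      refine Finset.sum_nbij' (fun g => up g u) (fun h => low h u) ?_ ?_ ?_ ?_ ?_
      · intro g hg
        refine Finset.mem_filter.2 ⟨(Finset.mem_filter.1 hg).2, by simp [up]⟩
      · intro h hh
        obtain ⟨h3, h4⟩ := Finset.mem_filter.1 hh
        refine Finset.mem_filter.2 ⟨?_, ?_⟩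
        · exact Finset.mem_biUnion.2 ⟨h, h3, Finset.mem_image_of_mem _ (Finset.mem_univ u)⟩
        · rw [up_low_self h4]; exact h3
      · intro g _; exact low_up_self g u
      · intro h hh; exact up_low_self (Finset.mem_filter.1 hh).2
      · intro g _
        rw [low_up_self]
        simp only [up, Function.update_self]
        push_cast
        ring
    rw [h1] at h0
    simp only [ker_low] at h0
    -- split according to `u ∈ U`
    have h2 : ∀ u : C, ∑ h ∈ WW Γ z z', bb Γ r z z' h *
        (if u ∈ U then ((h u : ℤ) - y u) * ker U y h else ((y u : ℤ) + 1) * ker U (up y u) h)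
        = ∑ h ∈ WW Γ z z', (if u ∈ U then bb Γ r z z' h * (((h u : ℤ) - y u) * ker U y h) else 0) := by
      intro u
      by_cases hu : u ∈ U
      · simp only [hu, if_true]
      · simp only [hu, if_false, Finset.sum_const_zero]
        have h3 : ∀ v ∈ U, up y u v < p := by
          intro v hv
          have : v ≠ u := by rintro rfl; exact hu hv
          simp only [up, Function.update_of_ne this]; exact hy v hv
        have h4 : ∑ v, up y u v = ∑ v, y v + 1 := by
          rw [← Finset.add_sum_erase univ _ (Finset.mem_univ u),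
            ← Finset.add_sum_erase univ y (Finset.mem_univ u)]
          have : ∑ x ∈ univ.erase u, up y u x = ∑ x ∈ univ.erase u, y x :=
            Finset.sum_congr rfl fun x hx => by
              simp only [up, Function.update_of_ne (Finset.ne_of_mem_erase hx)]
          rw [this]
          simp only [up, Function.update_self]; ring
        have h5 := ih (up y u) h3 (by omega)
        have h6 : ∑ h ∈ WW Γ z z', bb Γ r z z' h * (((y u : ℤ) + 1) * ker U (up y u) h)
            = ((y u : ℤ) + 1) * ∑ h ∈ WW Γ z z', bb Γ r z z' h * ker U (up y u) h := by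
          rw [Finset.mul_sum]
          exact Finset.sum_congr rfl fun h _ => by ring
        rw [h6, h5, mul_zero]
    rw [Finset.sum_congr rfl fun u _ => h2 u, Finset.sum_comm] at h0
    have h3 : ∀ h ∈ WW Γ z z', ∑ u, (if u ∈ U then bb Γ r z z' h *
        (((h u : ℤ) - y u) * ker U y h) else 0)
        = (((∑ v, z v : ℕ) : ℤ) - ((∑ v, y v : ℕ) : ℤ)) * (bb Γ r z z' h * ker U y h) := by
      intro h hh
      by_cases hker : ker U y h = 0
      · simp [hker]
      have hout : ∀ v, v ∉ U → h v = y v := by
        intro v hv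
        by_contra hne
        apply hker
        unfold ker
        refine Finset.prod_eq_zero (Finset.mem_univ v) ?_
        rw [if_neg hv, if_neg hne]
      have h4 : ∀ u, (if u ∈ U then bb Γ r z z' h * (((h u : ℤ) - y u) * ker U y h) else 0)
          = ((h u : ℤ) - y u) * (bb Γ r z z' h * ker U y h) := by
        intro u
        by_cases hu : u ∈ U
        · rw [if_pos hu]; ring
        · rw [if_neg hu, hout u hu]; ring
      rw [Finset.sum_congr rfl fun u _ => h4 u, ← Finset.sum_mul, Finset.sum_sub_distrib]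
      congr 1
      rw [← hsumW h hh]
      push_cast
      rfl
    rw [Finset.sum_congr rfl h3, ← Finset.mul_sum] at h0
    rcases mul_eq_zero.1 h0 with h4 | h4
    · exfalso
      have : (∑ v, z v : ℕ) = (∑ v, y v : ℕ) := by
        have : ((∑ v, z v : ℕ) : ℤ) = ((∑ v, y v : ℕ) : ℤ) := by linarith
        exact_mod_cast this
      -- then `∑ z = ∑ y`, contradicting nothing; use the induction hypothesis
      omega
    · exact h4

end words

end Pool.Agent.Helper63.EV
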