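import Mathlib
import Pool.Agent.Helper63.EV.Num

set_option autoImplicit false
set_option linter.unusedSectionVars false

/-!
# The support bound `∏ (1 + z v) ≤ 2 |Γ|`
-/

namespace Pool.Agent.Helper63.EV

open Finset Equiv

/-- `t` is a combination of `x ↦ C(x, d)`, `d < p`. -/
def BSpan (p : ℕ) (t : ℕ → ℚ) : Prop :=
  ∃ c : ℕ → ℚ, ∀ x : ℕ, t x = ∑ d ∈ Finset.range p, c d * (x.choose d : ℚ)

lemma BSpan.mono {p q : ℕ} (hpq : p ≤ q) {t : ℕ → ℚ} (h : BSpan p t) : BSpan q t := by
  obtain ⟨c, hc⟩ := h
  refine ⟨fun d => if d < p then c d else 0, fun x => ?_⟩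
  rw [hc x]
  rw [← Finset.sum_subset (Finset.range_mono hpq)]
  · refine Finset.sum_congr rfl fun d hd => ?_
    simp [Finset.mem_range.1 hd]
  · intro d _ hd
    have : ¬ d < p := fun h => hd (Finset.mem_range.2 h)
    simp [this]

lemma BSpan.const_mul {p : ℕ} {t : ℕ → ℚ} (h : BSpan p t) (a : ℚ) :
    BSpan p (fun x => a * t x) := by
  obtain ⟨c, hc⟩ := h
  refine ⟨fun d => a * c d, fun x => ?_⟩
  simp only
  rw [hc x, Finset.mul_sum]
  exact Finset.sum_congr rfl fun d _ => by ring

lemma choose_mul_id (x d : ℕ) : (x : ℚ) * (x.choose d : ℚ)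
    = ((d : ℚ) + 1) * (x.choose (d + 1) : ℚ) + (d : ℚ) * (x.choose d : ℚ) := by
  have h := Nat.choose_succ_right_eq x d
  rcases Nat.lt_or_ge x d with h1 | h1
  · rw [Nat.choose_eq_zero_of_lt h1, Nat.choose_eq_zero_of_lt (by omega : x < d + 1)]; simp
  · have h2 : ((x.choose (d + 1) * (d + 1) : ℕ) : ℚ) = ((x.choose d * (x - d) : ℕ) : ℚ) := by
      exact_mod_cast h
    push_cast [Nat.cast_sub h1] at h2
    linarith

lemma BSpan.mul_sub {p : ℕ} {t : ℕ → ℚ} (h : BSpan p t) (a : ℚ) :
    BSpan (p + 1) (fun x => ((x : ℚ) - a) * t x) := by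
  obtain ⟨c, hc⟩ := h
  refine ⟨fun d => (if d < p then c d * ((d : ℚ) - a) else 0)
    + (if 1 ≤ d then c (d - 1) * (d : ℚ) else 0), fun x => ?_⟩
  simp only
  rw [hc x, Finset.mul_sum]
  have h1 : ∀ d ∈ Finset.range p, ((x : ℚ) - a) * (c d * (x.choose d : ℚ))
      = c d * ((d : ℚ) - a) * (x.choose d : ℚ) + c d * ((d : ℚ) + 1) * (x.choose (d + 1) : ℚ) := by
    intro d _
    have := choose_mul_id x d
    linear_combination c d * this
  rw [Finset.sum_congr rfl h1, Finset.sum_add_distrib]
  simp only [add_mul]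
  rw [Finset.sum_add_distrib]
  congr 1
  · rw [Finset.sum_range_succ]
    simp only [lt_irrefl, if_false, zero_mul, add_zero]
    refine Finset.sum_congr rfl fun d hd => ?_
    rw [if_pos (Finset.mem_range.1 hd)]
  · rw [Finset.sum_range_succ']
    simp only [show ¬ (1 ≤ 0) by omega, if_false, zero_mul, add_zero]
    refine Finset.sum_congr rfl fun d _ => ?_
    rw [if_pos (by omega)]
    simp

lemma BSpan.prod (J : Finset ℕ) : BSpan (J.card + 1) (fun x => ∏ a ∈ J, ((x : ℚ) - a)) := by
  classical
  induction J using Finset.induction_on with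
  | empty => exact ⟨fun _ => 1, fun x => by simp⟩
  | insert a J ha ih =>
    rw [Finset.card_insert_of_notMem ha]
    have := ih.mul_sub (a : ℚ)
    refine (show (fun x : ℕ => ∏ b ∈ insert a J, ((x : ℚ) - b))
      = fun x : ℕ => ((x : ℚ) - a) * ∏ b ∈ J, ((x : ℚ) - b) from ?_) ▸ this
    funext x
    rw [Finset.prod_insert ha]

/-- interpolation -/
lemma interp (J : Finset ℕ) (p : ℕ) (hJ : J.card ≤ p) {x₀ : ℕ} (hx₀ : x₀ ∈ J) :
    ∃ c : ℕ → ℚ, ∀ x ∈ J, ∑ d ∈ Finset.range p, c d * (x.choose d : ℚ)
      = if x = x₀ then 1 else 0 := by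
  classical
  have h1 : (J.erase x₀).card + 1 ≤ p := by
    rw [Finset.card_erase_of_mem hx₀]
    have := Finset.card_pos.2 ⟨x₀, hx₀⟩
    omega
  have hne : ∏ a ∈ J.erase x₀, ((x₀ : ℚ) - a) ≠ 0 := by
    refine Finset.prod_ne_zero_iff.2 fun a ha => ?_
    have := Finset.ne_of_mem_erase ha
    intro h
    apply this
    have : (a : ℚ) = x₀ := by linarith
    exact_mod_cast this
  obtain ⟨c, hc⟩ := ((BSpan.prod (J.erase x₀)).mono h1).const_mul
    (∏ a ∈ J.erase x₀, ((x₀ : ℚ) - a))⁻¹
  refine ⟨c, fun x hx => ?_⟩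
  rw [← hc x]
  by_cases h : x = x₀
  · subst h; rw [if_pos rfl]; exact inv_mul_cancel₀ hne
  · have h2 : ∏ a ∈ J.erase x₀, ((x : ℚ) - a) = 0 :=
      Finset.prod_eq_zero (Finset.mem_erase.2 ⟨h, hx⟩) (sub_self _)
    rw [if_neg h]
    exact mul_eq_zero_of_right _ h2

variable {C : Type*} [Fintype C] [DecidableEq C]

/-- The main support bound, by induction on the set `S` of active points. -/
theorem supp_bound (f : (C → ℕ) → ℤ) (z : C → ℕ) (P : ℕ → ℕ)
    (hP : ∀ s, P s = 0 ∨ (univ.filter fun v => z v < P s).card < s) :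
    ∀ (s : ℕ) (S : Finset C) (W : Finset (C → ℕ)), S.card = s →
      (∀ h ∈ W, ∀ h' ∈ W, ∀ v, v ∉ S → h v = h' v) →
      (∃ h ∈ W, f h ≠ 0) →
      (∀ (p : ℕ) (U : Finset C), U ⊆ S → (univ.filter fun v => z v < p).card < U.card →
        ∀ y : C → ℕ, (∀ v ∈ U, y v < p) → ∑ h ∈ W, f h * ker U y h = 0) →
      ∏ i ∈ Finset.range s, (1 + P (i + 1)) ≤ (W.filter fun h => f h ≠ 0).card := by
  classical
  intro s
  induction s with
  | zero =>
    rintro S W _ _ ⟨h, hW, hf⟩ _
    simpa using Finset.card_pos.2 ⟨h, Finset.mem_filter.2 ⟨hW, hf⟩⟩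
  | succ s ih =>
    rintro S W hS hagree ⟨h0, hW0, hf0⟩ hkill
    set J : C → Finset ℕ := fun v => (W.filter fun h => f h ≠ 0).image fun h => h v with hJ
    have hJ0 : ∀ v, h0 v ∈ J v := fun v =>
      Finset.mem_image.2 ⟨h0, Finset.mem_filter.2 ⟨hW0, hf0⟩, rfl⟩
    -- a point with many values
    obtain ⟨v, hvS, hvJ⟩ : ∃ v ∈ S, 1 + P (s + 1) ≤ (J v).card := by
      rcases hP (s + 1) with hp | hp
      · obtain ⟨v, hv⟩ : S.Nonempty := Finset.card_pos.1 (by omega)
        exact ⟨v, hv, by rw [hp]; exact Finset.card_pos.2 ⟨_, hJ0 v⟩⟩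
      · by_contra hcon
        push Not at hcon
        have hJle : ∀ v ∈ S, (J v).card ≤ P (s + 1) := fun v hv => by
          have := hcon v hv; omega
        have hc : ∀ v, ∃ c : ℕ → ℚ, v ∈ S → ∀ x ∈ J v, ∑ d ∈ Finset.range (P (s + 1)),
            c d * (x.choose d : ℚ) = if x = h0 v then 1 else 0 := by
          intro v
          by_cases hv : v ∈ S
          · obtain ⟨c, hc⟩ := interp (J v) (P (s + 1)) (hJle v hv) (hJ0 v)
            exact ⟨c, fun _ => hc⟩
          · exact ⟨fun _ => 0, fun h => absurd h hv⟩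
        choose c hc using hc
        -- expand the product
        set T : C → Finset ℕ := fun v => if v ∈ S then Finset.range (P (s + 1)) else {h0 v} with hT
        have hexp : ∀ h ∈ W, (∏ v, if v ∈ S then ∑ d ∈ Finset.range (P (s + 1)),
            c v d * ((h v).choose d : ℚ) else 1)
            = ∑ y ∈ Fintype.piFinset T, (∏ v, if v ∈ S then c v (y v) else 1) * (ker S y h : ℚ) := by
          intro h hh
          have e1 : ∀ v, (if v ∈ S then ∑ d ∈ Finset.range (P (s + 1)),
              c v d * ((h v).choose d : ℚ) else 1)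
              = ∑ d ∈ T v, (if v ∈ S then c v d else 1) *
                (if v ∈ S then ((h v).choose d : ℚ) else if h v = d then 1 else 0) := by
            intro v
            by_cases hv : v ∈ S
            · simp only [hT, hv, if_true]
            · simp only [hT, hv, if_false, Finset.sum_singleton, one_mul]
              rw [if_pos (hagree h hh h0 hW0 v hv)]
          rw [Finset.prod_congr rfl fun v _ => e1 v, Finset.prod_univ_sum]
          refine Finset.sum_congr rfl fun y _ => ?_
          rw [Finset.prod_mul_distrib]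
          congr 1
          unfold ker
          push_cast
          rfl
        have hzero : ∑ h ∈ W, (f h : ℚ) * (∏ v, if v ∈ S then ∑ d ∈ Finset.range (P (s + 1)),
            c v d * ((h v).choose d : ℚ) else 1) = 0 := by
          have e2 : ∀ h ∈ W, (f h : ℚ) * (∏ v, if v ∈ S then ∑ d ∈ Finset.range (P (s + 1)),
              c v d * ((h v).choose d : ℚ) else 1)
              = ∑ y ∈ Fintype.piFinset T, (∏ v, if v ∈ S then c v (y v) else 1) *
                ((f h : ℚ) * (ker S y h : ℚ)) := by
            intro h hh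
            rw [hexp h hh, Finset.mul_sum]
            exact Finset.sum_congr rfl fun y _ => by ring
          rw [Finset.sum_congr rfl e2, Finset.sum_comm]
          refine Finset.sum_eq_zero fun y hy => ?_
          rw [← Finset.mul_sum]
          have h3 := hkill (P (s + 1)) S (Finset.Subset.refl S) (by rw [hS]; exact hp) y
            (fun v hv => by
              have := Fintype.mem_piFinset.1 hy v
              simp only [hT, hv, if_true] at this
              exact Finset.mem_range.1 this)
          have h4 : ∑ h ∈ W, (f h : ℚ) * (ker S y h : ℚ) = 0 := by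
            have : ((∑ h ∈ W, f h * ker S y h : ℤ) : ℚ) = 0 := by rw [h3]; simp
            push_cast at this
            exact this
          rw [h4, mul_zero]
        have hval : ∑ h ∈ W, (f h : ℚ) * (∏ v, if v ∈ S then ∑ d ∈ Finset.range (P (s + 1)),
            c v d * ((h v).choose d : ℚ) else 1) = f h0 := by
          rw [Finset.sum_eq_single_of_mem h0 hW0]
          · have : (∏ v, if v ∈ S then ∑ d ∈ Finset.range (P (s + 1)),
                c v d * ((h0 v).choose d : ℚ) else 1) = 1 := by
              refine Finset.prod_eq_one fun v _ => ?_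
              by_cases hv : v ∈ S
              · rw [if_pos hv, hc v hv (h0 v) (hJ0 v), if_pos rfl]
              · rw [if_neg hv]
            rw [this, mul_one]
          · intro h hh hne
            by_cases hfh : f h = 0
            · rw [hfh]; simp
            obtain ⟨v, hv⟩ : ∃ v, h v ≠ h0 v := by
              by_contra hcon
              push Not at hcon
              exact hne (funext hcon)
            have hvS : v ∈ S := by
              by_contra hvS
              exact hv (hagree h hh h0 hW0 v hvS)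
            have hvJ : h v ∈ J v := Finset.mem_image.2 ⟨h, Finset.mem_filter.2 ⟨hh, hfh⟩, rfl⟩
            rw [Finset.prod_eq_zero (Finset.mem_univ v), mul_zero]
            rw [if_pos hvS, hc v hvS (h v) hvJ, if_neg hv]
        rw [hval] at hzero
        exact hf0 (by exact_mod_cast hzero)
    -- split according to the value at `v`
    have hsplit : (W.filter fun h => f h ≠ 0).card
        = ∑ j ∈ J v, ((W.filter fun h => h v = j).filter fun h => f h ≠ 0).card := by
      rw [Finset.card_eq_sum_card_fiberwise (s := W.filter fun h => f h ≠ 0)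
        (f := fun h => h v) (t := J v)
        (fun h hh => Finset.mem_coe.2 (Finset.mem_image_of_mem _ (Finset.mem_coe.1 hh)))]
      refine Finset.sum_congr rfl fun j _ => ?_
      congr 1
      ext h
      simp only [Finset.mem_filter]
      tauto
    rw [hsplit, Finset.prod_range_succ]
    have hsub : ∀ j ∈ J v, ∏ i ∈ Finset.range s, (1 + P (i + 1))
        ≤ ((W.filter fun h => h v = j).filter fun h => f h ≠ 0).card := by
      intro j hj
      refine ih (S.erase v) (W.filter fun h => h v = j) ?_ ?_ ?_ ?_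
      · rw [Finset.card_erase_of_mem hvS]; omega
      · intro h hh h' hh' u hu
        by_cases huv : u = v
        · rw [huv, (Finset.mem_filter.1 hh).2, (Finset.mem_filter.1 hh').2]
        · exact hagree h (Finset.mem_filter.1 hh).1 h' (Finset.mem_filter.1 hh').1 u
            (fun h => hu (Finset.mem_erase.2 ⟨huv, h⟩))
      · obtain ⟨h, hh, hhj⟩ := Finset.mem_image.1 hj
        obtain ⟨h1, h2⟩ := Finset.mem_filter.1 hh
        exact ⟨h, Finset.mem_filter.2 ⟨h1, hhj⟩, h2⟩
      · intro p U hU hcard y hy
        have hvU : v ∉ U := fun h => Finset.notMem_erase v S (hU h)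
        have h1 := hkill p U (hU.trans (Finset.erase_subset _ _)) hcard (Function.update y v j)
          (fun u hu => by
            rw [Function.update_of_ne (by rintro rfl; exact hvU hu)]; exact hy u hu)
        rw [Finset.sum_filter]
        by_cases hyv : y v = j
        · have : Function.update y v j = y := by rw [← hyv]; exact Function.update_eq_self v y
          rw [this] at h1
          refine Eq.trans (Finset.sum_congr rfl fun h _ => ?_) h1
          by_cases hhv : h v = j
          · rw [if_pos hhv]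
          · rw [if_neg hhv]
            have : ker U y h = 0 := by
              unfold ker
              refine Finset.prod_eq_zero (Finset.mem_univ v) ?_
              rw [if_neg hvU, if_neg (by rw [hyv]; exact hhv)]
            rw [this, mul_zero]
        · refine Finset.sum_eq_zero fun h _ => ?_
          split_ifs with hhv
          · have : ker U y h = 0 := by
              unfold ker
              refine Finset.prod_eq_zero (Finset.mem_univ v) ?_
              rw [if_neg hvU, if_neg (by rw [hhv]; exact fun h => hyv h.symm)]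
            rw [this, mul_zero]
          · rfl
    calc (∏ i ∈ Finset.range s, (1 + P (i + 1))) * (1 + P (s + 1))
        ≤ (∏ i ∈ Finset.range s, (1 + P (i + 1))) * (J v).card := Nat.mul_le_mul_left _ hvJ
      _ = ∑ j ∈ J v, ∏ i ∈ Finset.range s, (1 + P (i + 1)) := by
          rw [Finset.sum_const, smul_eq_mul, mul_comm]
      _ ≤ _ := Finset.sum_le_sum hsub

/-- sorted enumeration -/
lemma exists_sorted (z : C → ℕ) : ∃ (N : ℕ) (e : Fin N ≃ C), N = Fintype.card C ∧
    Monotone (z ∘ e) := by
  classical
  set e0 := (Fintype.equivFin C).symm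
  exact ⟨_, (Tuple.sort (z ∘ e0)).trans e0, rfl, Tuple.monotone_sort (z ∘ e0)⟩

theorem prod_le_supp (f : (C → ℕ) → ℤ) (z : C → ℕ) (W : Finset (C → ℕ))
    (hne : ∃ h ∈ W, f h ≠ 0)
    (hkill : ∀ (p : ℕ) (U : Finset C), (univ.filter fun v => z v < p).card < U.card →
        ∀ y : C → ℕ, (∀ v ∈ U, y v < p) → ∑ h ∈ W, f h * ker U y h = 0) :
    ∏ v, (1 + z v) ≤ (W.filter fun h => f h ≠ 0).card := by
  classical
  obtain ⟨N, e, hN, he⟩ := exists_sorted z
  set P : ℕ → ℕ := fun s => if hs : s ≠ 0 ∧ s - 1 < N then z (e ⟨s - 1, hs.2⟩) else 0 with hPdef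
  have hP : ∀ s, P s = 0 ∨ (univ.filter fun v => z v < P s).card < s := by
    intro s
    by_cases h0 : P s = 0
    · exact Or.inl h0
    right
    by_cases hs : s ≠ 0 ∧ s - 1 < N
    · have hPs : P s = z (e ⟨s - 1, hs.2⟩) := by simp only [hPdef]; rw [dif_pos hs]
      rw [hPs] at h0 ⊢
      have hsub : (univ.filter fun v => z v < z (e ⟨s - 1, hs.2⟩))
          ⊆ (Finset.univ.filter fun i : Fin N => i.1 < s - 1).map e.toEmbedding := by
        intro v hv
        have hv' := (Finset.mem_filter.1 hv).2
        refine Finset.mem_map.2 ⟨e.symm v, Finset.mem_filter.2 ⟨Finset.mem_univ _, ?_⟩, by simp⟩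
        by_contra hcon
        push Not at hcon
        have h1 : (⟨s - 1, hs.2⟩ : Fin N) ≤ e.symm v := hcon
        have h2 : z (e ⟨s - 1, hs.2⟩) ≤ z (e (e.symm v)) := he h1
        rw [Equiv.apply_symm_apply] at h2
        omega
      have h1 := Finset.card_le_card hsub
      rw [Finset.card_map] at h1
      have h2 : (Finset.univ.filter fun i : Fin N => i.1 < s - 1).card ≤ s - 1 := by
        have : (Finset.univ.filter fun i : Fin N => i.1 < s - 1).card
            = ((Finset.univ.filter fun i : Fin N => i.1 < s - 1).image fun i => i.1).card :=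
          (Finset.card_image_of_injective _ Fin.val_injective).symm
        rw [this]
        calc _ ≤ (Finset.range (s - 1)).card := by
              refine Finset.card_le_card fun a ha => ?_
              obtain ⟨i, hi, rfl⟩ := Finset.mem_image.1 ha
              exact Finset.mem_range.2 (Finset.mem_filter.1 hi).2
          _ = s - 1 := Finset.card_range _
      have := hs.1
      omega
    · exfalso; exact h0 (by simp only [hPdef]; rw [dif_neg hs])
  have h1 := supp_bound f z P hP N univ W (by rw [Finset.card_univ, hN]) (fun _ _ _ _ v hv =>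
    absurd (Finset.mem_univ v) hv) hne (fun p U _ => hkill p U)
  have h2 : ∏ i ∈ Finset.range N, (1 + P (i + 1)) = ∏ v, (1 + z v) := by
    rw [← Equiv.prod_comp e, ← Fin.prod_univ_eq_prod_range (fun i => 1 + P (i + 1)) N]
    refine Finset.prod_congr rfl fun i _ => ?_
    simp only [hPdef]
    rw [dif_pos (by simp)]
    simp
  rw [← h2]
  exact h1

variable {Γ : Subgroup (Perm C)} {r z z' : C → ℕ}

/-- The group order bound. -/
theorem group_bound (hr : ∀ γ ∈ Γ, ∀ v, r (γ v) = r v) (hr2 : ∀ v, r v ≤ 2)
    (hD : AbsDeck Γ r z z')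
    (hL : 5 ≤ Fintype.card (NL r z) ∨ (3 ≤ Fintype.card (NL r z) ∧ ∀ v, r v = 0))
    (hne : ∀ γ ∈ Γ, z ≠ z' ∘ γ) :
    ∏ v, (1 + z v) ≤ 2 * Nat.card Γ := by
  classical
  have hqu := qO_eq hr hr2 hD hL univ (fun γ _ => pres_univ γ)
  have hc := content_eq hr hr2 hD hL
  have hK : ∑ v, z' v = ∑ v, z v := by
    obtain ⟨e, he⟩ := hD
    have hpos : 0 < Fintype.card (NL r z) := by omega
    obtain ⟨l0⟩ : Nonempty (NL r z) := Fintype.card_pos_iff.1 hpos
    obtain ⟨γ, hγ, h⟩ := he l0
    have h2 := lO_low univ z l0.1.1 l0.2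
    have h3 := lO_low univ z' (e l0).1.1 (e l0).2
    rw [h, lO_comp (pres_univ γ), h2] at h3
    simp only [Finset.mem_univ, if_true, lO] at h3
    have : (∑ v, (z' v : ℤ)) = ∑ v, (z v : ℤ) := by linarith
    exact_mod_cast this
  have h1 := prod_le_supp (fun h => bb Γ r z z' h) z (WW Γ z z')
    ⟨z, bb_mem_WW (bb_self_ne_zero (r := r) hne), bb_self_ne_zero hne⟩
    (fun p U hU y hy => kill hr hD hqu hc hK p U hU (∑ v, z v) y hy (by omega))
  exact (h1.trans (Finset.card_filter_le _ _)).trans WW_card

end Pool.Agent.Helper63.EV
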