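import Mathlib
import Pool.Agent.Helper63.EV.Supp

set_option autoImplicit false
set_option linter.unusedSectionVars false

/-!
# From graphs to weighted cores
-/

namespace Pool.Agent.Helper63.EV

open Finset Equiv

/-- `v` is an endvertex: it has exactly one neighbour. -/
def IsEnd {V : Type*} (G : SimpleGraph V) (v : V) : Prop := ∃! u, G.Adj v u

/-- No isolated vertices. -/
def NoIso {V : Type*} (G : SimpleGraph V) : Prop := ∀ v, ∃ u, G.Adj v u

/-- The endvertices of `G` and `G'` can be matched so that corresponding vertex-deleted subgraphs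
are isomorphic, i.e. the endvertex-decks agree as multisets. -/
def SameDeck {V W : Type*} (G : SimpleGraph V) (G' : SimpleGraph W) : Prop :=
  ∃ e : {v // IsEnd G v} ≃ {w // IsEnd G' w},
    ∀ v, Nonempty (G.induce {v.1}ᶜ ≃g G'.induce {(e v).1}ᶜ)

lemma SameDeck.symm {V W : Type*} {G : SimpleGraph V} {G' : SimpleGraph W}
    (h : SameDeck G G') : SameDeck G' G := by
  obtain ⟨e, he⟩ := h
  refine ⟨e.symm, fun w => ?_⟩
  obtain ⟨f⟩ := he (e.symm w)
  rw [Equiv.apply_symm_apply] at f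
  exact ⟨f.symm⟩

/-! ### Extending an isomorphism over one vertex -/

lemma extend_iso {V W : Type*} {G : SimpleGraph V} {G' : SimpleGraph W} {l : V} {l' : W}
    (ψ : G.induce {l}ᶜ ≃g G'.induce {l'}ᶜ)
    (h : ∀ x : ({l}ᶜ : Set V), G.Adj l x.1 ↔ G'.Adj l' (ψ x).1) : Nonempty (G ≃g G') := by
  classical
  set E : V ≃ W := (Equiv.Set.sumCompl ({l} : Set V)).symm.trans
    ((Equiv.sumCongr (Equiv.ofUnique ({l} : Set V) ({l'} : Set W)) ψ.toEquiv).trans
      (Equiv.Set.sumCompl ({l'} : Set W))) with hE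
  have hl : E l = l' := by
    simp only [hE, Equiv.trans_apply]
    rw [Equiv.Set.sumCompl_symm_apply_of_mem (s := ({l} : Set V)) (x := l) rfl]
    simp
  have hx : ∀ x : ({l}ᶜ : Set V), E x.1 = (ψ x).1 := by
    intro x
    simp only [hE, Equiv.trans_apply]
    rw [Equiv.Set.sumCompl_symm_apply_of_notMem (s := ({l} : Set V)) (x := x.1) x.2]
    simp
  refine ⟨⟨E, ?_⟩⟩
  intro a b
  by_cases ha : a = l
  · subst ha
    by_cases hb : b = a
    · subst hb; simp
    · rw [hl, hx ⟨b, hb⟩]; exact (h ⟨b, hb⟩).symm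
  · by_cases hb : b = l
    · subst hb
      rw [hl, hx ⟨a, ha⟩, G'.adj_comm, G.adj_comm]
      exact (h ⟨a, ha⟩).symm
    · rw [hx ⟨a, ha⟩, hx ⟨b, hb⟩]
      have := ψ.map_rel_iff (a := ⟨a, ha⟩) (b := ⟨b, hb⟩)
      simpa [SimpleGraph.induce] using this

/-- A graph with two adjacent endvertices is reconstructible. -/
lemma iso_of_adj_ends {V W : Type*} {G : SimpleGraph V} {G' : SimpleGraph W}
    (hG' : NoIso G') (hD : SameDeck G G') {l y : V} (hl : IsEnd G l) (hy : IsEnd G y)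
    (hly : G.Adj l y) : Nonempty (G ≃g G') := by
  obtain ⟨e, he⟩ := hD
  obtain ⟨ψ⟩ := he ⟨l, hl⟩
  set l' := (e ⟨l, hl⟩).1 with hl'
  have hlend : IsEnd G' l' := (e ⟨l, hl⟩).2
  have hyl : y ≠ l := fun h => G.ne_of_adj hly h.symm
  set y0 : ({l}ᶜ : Set V) := ⟨y, hyl⟩ with hy0
  -- the image of `y` is adjacent only to `l'`
  obtain ⟨u, hu⟩ := hG' (ψ y0).1
  have hul : u = l' := by
    by_contra hne
    have h1 : (G'.induce {l'}ᶜ).Adj (ψ y0) ⟨u, hne⟩ := by simpa [SimpleGraph.induce] using hu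
    obtain ⟨x, hx⟩ := ψ.surjective ⟨u, hne⟩
    rw [← hx, ψ.map_rel_iff] at h1
    have h2 : G.Adj y x.1 := by simpa [SimpleGraph.induce] using h1
    have h3 := hy.unique h2 hly.symm
    exact x.2 h3
  rw [hul] at hu
  refine extend_iso ψ fun x => ?_
  constructor
  · intro h
    have h1 : x.1 = y := hl.unique h hly
    have h2 : x = y0 := Subtype.ext h1
    rw [h2]; exact hu.symm
  · intro h
    have h1 : (ψ x).1 = (ψ y0).1 := hlend.unique h hu.symm
    have h2 : x = y0 := ψ.injective (Subtype.ext h1)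
    rw [h2]; exact hly

/-! ### Cores -/

section core

variable {V : Type*} (G : SimpleGraph V)

/-- the non-endvertices -/
abbrev Cr : Type _ := {v : V // ¬ IsEnd G v}

/-- the endvertices -/
abbrev Ed : Type _ := {v : V // IsEnd G v}

/-- the graph on the non-endvertices -/
abbrev coreG : SimpleGraph (Cr G) := G.induce {v | ¬ IsEnd G v}

/-- the neighbour of an endvertex -/
noncomputable def nb (l : Ed G) : V := l.2.choose

lemma nb_adj (l : Ed G) : G.Adj l.1 (nb G l) := l.2.choose_spec.1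

lemma nb_unique (l : Ed G) {x : V} (h : G.Adj l.1 x) : x = nb G l :=
  l.2.unique h (nb_adj G l)

/-- no two adjacent endvertices -/
def NoK2 : Prop := ∀ x y, IsEnd G x → IsEnd G y → ¬ G.Adj x y

variable {G}

/-- the support of an endvertex -/
noncomputable def sp (hK : NoK2 G) (l : Ed G) : Cr G :=
  ⟨nb G l, fun h => hK l.1 (nb G l) l.2 h (nb_adj G l)⟩

lemma adj_sp (hK : NoK2 G) (l : Ed G) (x : Cr G) : G.Adj l.1 x.1 ↔ x = sp hK l := by
  constructor
  · intro h; exact Subtype.ext (nb_unique G l h)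
  · rintro rfl; exact nb_adj G l

/-- Isomorphism from matching cores and supports. -/
lemma iso_of_core {W : Type*} {G' : SimpleGraph W} (hK : NoK2 G) (hK' : NoK2 G')
    (φ : coreG G ≃g coreG G') (e : Ed G ≃ Ed G') (h : ∀ l, sp hK' (e l) = φ (sp hK l)) :
    Nonempty (G ≃g G') := by
  classical
  set E : V ≃ W := (Equiv.sumCompl (fun v => IsEnd G v)).symm.trans
    ((Equiv.sumCongr e φ.toEquiv).trans (Equiv.sumCompl (fun v => IsEnd G' v))) with hE
  have h1 : ∀ l : Ed G, E l.1 = (e l).1 := by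
    intro l
    simp only [hE, Equiv.trans_apply]
    rw [Equiv.sumCompl_symm_apply_of_pos (p := fun v => IsEnd G v) l.2]
    simp
  have h2 : ∀ c : Cr G, E c.1 = (φ c).1 := by
    intro c
    simp only [hE, Equiv.trans_apply]
    rw [Equiv.sumCompl_symm_apply_of_neg (p := fun v => IsEnd G v) c.2]
    simp
  refine ⟨⟨E, ?_⟩⟩
  intro a b
  by_cases ha : IsEnd G a
  · by_cases hb : IsEnd G b
    · rw [h1 ⟨a, ha⟩, h1 ⟨b, hb⟩]
      exact iff_of_false (hK' _ _ (e ⟨a, ha⟩).2 (e ⟨b, hb⟩).2) (hK _ _ ha hb)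
    · rw [h1 ⟨a, ha⟩, h2 ⟨b, hb⟩, adj_sp hK' (e ⟨a, ha⟩) (φ ⟨b, hb⟩), h,
        adj_sp hK ⟨a, ha⟩ ⟨b, hb⟩, φ.injective.eq_iff]
  · by_cases hb : IsEnd G b
    · rw [h1 ⟨b, hb⟩, h2 ⟨a, ha⟩, G'.adj_comm, G.adj_comm,
        adj_sp hK' (e ⟨b, hb⟩) (φ ⟨a, ha⟩), h, adj_sp hK ⟨b, hb⟩ ⟨a, ha⟩, φ.injective.eq_iff]
    · rw [h2 ⟨a, ha⟩, h2 ⟨b, hb⟩]
      have := φ.map_rel_iff (a := ⟨a, ha⟩) (b := ⟨b, hb⟩)
      simpa [SimpleGraph.induce] using this

end core

section counts

variable {V : Type*} [Finite V] {G : SimpleGraph V}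

/-- number of endvertices adjacent to `c` -/
noncomputable def wtN (G : SimpleGraph V) (c : V) : ℕ := {y | G.Adj c y ∧ IsEnd G y}.ncard

/-- number of non-endvertices adjacent to `c` -/
noncomputable def dgN (G : SimpleGraph V) (c : V) : ℕ := {y | G.Adj c y ∧ ¬ IsEnd G y}.ncard

lemma isEnd_iff_ncard (G : SimpleGraph V) (c : V) : IsEnd G c ↔ {y | G.Adj c y}.ncard = 1 := by
  rw [Set.ncard_eq_one]
  constructor
  · rintro ⟨u, hu, hu'⟩
    exact ⟨u, Set.ext fun y => ⟨fun h => hu' y h, fun h => by rw [Set.mem_singleton_iff.1 h]; exact hu⟩⟩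
  · rintro ⟨u, hu⟩
    have h1 : ∀ y, G.Adj c y ↔ y = u := fun y => by
      have := Set.ext_iff.1 hu y
      simpa using this
    exact ⟨u, (h1 u).2 rfl, fun y hy => (h1 y).1 hy⟩

lemma dg_add_wt (G : SimpleGraph V) (c : V) : dgN G c + wtN G c = {y | G.Adj c y}.ncard := by
  unfold dgN wtN
  rw [add_comm, ← Set.ncard_union_eq]
  · congr 1
    ext y
    simp only [Set.mem_union, Set.mem_ofPred_eq]
    tauto
  · rw [Set.disjoint_left]
    rintro y ⟨_, h1⟩ ⟨_, h2⟩
    exact h2 h1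

lemma two_le (hN : NoIso G) {c : V} (hc : ¬ IsEnd G c) : 2 ≤ dgN G c + wtN G c := by
  rw [dg_add_wt]
  have h1 : {y | G.Adj c y}.ncard ≠ 1 := fun h => hc ((isEnd_iff_ncard G c).2 h)
  have h2 : {y | G.Adj c y}.ncard ≠ 0 := by
    obtain ⟨u, hu⟩ := hN c
    exact ((Set.ncard_pos).2 ⟨u, hu⟩).ne'
  omega

lemma isEnd_iso {W : Type*} {G' : SimpleGraph W} (ψ : G ≃g G') (x : V) :
    IsEnd G' (ψ x) ↔ IsEnd G x := by
  constructor
  · rintro ⟨u, hu, hu'⟩
    have h0 : G.Adj x (ψ.symm u) := by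
      rw [← ψ.map_rel_iff]; simpa using hu
    refine ⟨ψ.symm u, h0, fun y hy => ?_⟩
    have := hu' (ψ y) ((ψ.map_rel_iff).2 hy)
    rw [← this]; simp
  · rintro ⟨u, hu, hu'⟩
    refine ⟨ψ u, (ψ.map_rel_iff).2 hu, fun y hy => ?_⟩
    have h1 : G.Adj x (ψ.symm y) := by
      rw [← ψ.map_rel_iff]; simpa using hy
    rw [← hu' _ h1]; simp

lemma wtN_iso {W : Type*} [Finite W] {G' : SimpleGraph W} (ψ : G ≃g G') (x : V) :
    wtN G' (ψ x) = wtN G x := by
  unfold wtN
  rw [← Set.ncard_image_of_injective _ ψ.injective]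
  congr 1
  ext y
  simp only [Set.mem_ofPred_eq, Set.mem_image]
  constructor
  · rintro ⟨h1, h2⟩
    refine ⟨ψ.symm y, ⟨?_, ?_⟩, by simp⟩
    · rw [← ψ.map_rel_iff]; simpa using h1
    · rw [← isEnd_iso ψ]; simpa using h2
  · rintro ⟨x', ⟨h1, h2⟩, rfl⟩
    exact ⟨(ψ.map_rel_iff).2 h1, (isEnd_iso ψ x').2 h2⟩

lemma ncard_ends_iso {W : Type*} {G' : SimpleGraph W} (ψ : G ≃g G') :
    {y | IsEnd G' y}.ncard = {y | IsEnd G y}.ncard := by
  rw [← Set.ncard_image_of_injective _ ψ.injective]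
  congr 1
  ext y
  simp only [Set.mem_ofPred_eq, Set.mem_image]
  constructor
  · intro h
    exact ⟨ψ.symm y, by rw [← isEnd_iso ψ]; simpa using h, by simp⟩
  · rintro ⟨x, h, rfl⟩
    exact (isEnd_iso ψ x).2 h

/-! ### Deleting an endvertex -/

variable (hK : NoK2 G) (l : Ed G)

lemma isEnd_del (x : ({l.1}ᶜ : Set V)) :
    IsEnd (G.induce {l.1}ᶜ) x ↔ ({y | G.Adj x.1 y} \ {l.1}).ncard = 1 := by
  rw [isEnd_iff_ncard, ← Set.ncard_image_of_injective _ Subtype.val_injective]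
  have : Subtype.val '' {y | (G.induce {l.1}ᶜ).Adj x y} = {y | G.Adj x.1 y} \ {l.1} := by
    ext y
    simp only [Set.mem_image, Set.mem_ofPred_eq, Set.mem_sdiff, Set.mem_singleton_iff]
    constructor
    · rintro ⟨y', h1, rfl⟩
      exact ⟨by simpa [SimpleGraph.induce] using h1, y'.2⟩
    · rintro ⟨h1, h2⟩
      exact ⟨⟨y, h2⟩, by simpa [SimpleGraph.induce] using h1, rfl⟩
  rw [this]

lemma isEnd_del_of_ne (x : ({l.1}ᶜ : Set V)) (hx : x.1 ≠ nb G l) :
    IsEnd (G.induce {l.1}ᶜ) x ↔ IsEnd G x.1 := by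
  rw [isEnd_del, isEnd_iff_ncard]
  have : {y | G.Adj x.1 y} \ {l.1} = {y | G.Adj x.1 y} := by
    apply Set.sdiff_singleton_eq_self
    intro h
    exact hx (nb_unique G l (SimpleGraph.Adj.symm h))
  rw [this]

lemma isEnd_del_nb (x : ({l.1}ᶜ : Set V)) (hx : x.1 = nb G l) :
    IsEnd (G.induce {l.1}ᶜ) x ↔ dgN G (nb G l) + wtN G (nb G l) = 2 := by
  rw [isEnd_del, hx, dg_add_wt]
  have h1 : l.1 ∈ {y | G.Adj (nb G l) y} := (nb_adj G l).symm
  rw [Set.ncard_sdiff_singleton_of_mem h1]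
  have h2 : {y | G.Adj (nb G l) y}.ncard ≠ 0 := by
    exact ((Set.ncard_pos).2 ⟨_, h1⟩).ne'
  omega

/-- a normal endvertex: its neighbour has degree at least three -/
def Normal (l : Ed G) : Prop := 3 ≤ dgN G (nb G l) + wtN G (nb G l)

include hK in
lemma isEnd_del_normal (hN : Normal l) (x : ({l.1}ᶜ : Set V)) :
    IsEnd (G.induce {l.1}ᶜ) x ↔ IsEnd G x.1 := by
  by_cases hx : x.1 = nb G l
  · rw [isEnd_del_nb l x hx]
    have h1 : ¬ IsEnd G x.1 := by
      rw [hx]; exact fun h => hK l.1 (nb G l) l.2 h (nb_adj G l)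
    have h2 : ¬ (dgN G (nb G l) + wtN G (nb G l) = 2) := by
      unfold Normal at hN; omega
    exact iff_of_false h2 h1
  · exact isEnd_del_of_ne l x hx

lemma ends_pos (l : Ed G) : 0 < {y | IsEnd G y}.ncard := by
  rw [Set.ncard_pos]; exact ⟨l.1, l.2⟩

include hK in
/-- the number of endvertices of the card detects normality -/
lemma ends_del (hNI : NoIso G) : ({y | IsEnd (G.induce {l.1}ᶜ) y}.ncard < {y | IsEnd G y}.ncard)
    ↔ Normal l := by
  have himg : {y | IsEnd (G.induce {l.1}ᶜ) y}.ncard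
      = (Subtype.val '' {y | IsEnd (G.induce {l.1}ᶜ) y}).ncard :=
    (Set.ncard_image_of_injective _ Subtype.val_injective).symm
  have hlmem : l.1 ∈ {y | IsEnd G y} := l.2
  by_cases hN : Normal l
  · refine iff_of_true ?_ hN
    have : Subtype.val '' {y | IsEnd (G.induce {l.1}ᶜ) y} = {y | IsEnd G y} \ {l.1} := by
      ext y
      simp only [Set.mem_image, Set.mem_ofPred_eq, Set.mem_sdiff, Set.mem_singleton_iff]
      constructor
      · rintro ⟨y', h1, rfl⟩
        exact ⟨(isEnd_del_normal hK l hN y').1 h1, y'.2⟩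
      · rintro ⟨h1, h2⟩
        exact ⟨⟨y, h2⟩, (isEnd_del_normal hK l hN ⟨y, h2⟩).2 h1, rfl⟩
    rw [himg, this, Set.ncard_sdiff_singleton_of_mem hlmem]
    have := ends_pos l
    omega
  · refine iff_of_false ?_ hN
    have hs : ¬ IsEnd G (nb G l) := fun h => hK l.1 (nb G l) l.2 h (nb_adj G l)
    have h2 : dgN G (nb G l) + wtN G (nb G l) = 2 := by
      have := two_le hNI hs
      unfold Normal at hN
      omega
    have hne : nb G l ≠ l.1 := fun h => G.ne_of_adj (nb_adj G l) h.symm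
    have : Subtype.val '' {y | IsEnd (G.induce {l.1}ᶜ) y}
        = insert (nb G l) ({y | IsEnd G y} \ {l.1}) := by
      ext y
      simp only [Set.mem_image, Set.mem_ofPred_eq, Set.mem_sdiff, Set.mem_singleton_iff,
        Set.mem_insert_iff]
      constructor
      · rintro ⟨y', h1, rfl⟩
        by_cases hy : y'.1 = nb G l
        · exact Or.inl hy
        · exact Or.inr ⟨(isEnd_del_of_ne l y' hy).1 h1, y'.2⟩
      · rintro (h1 | ⟨h1, h3⟩)
        · subst h1
          exact ⟨⟨_, hne⟩, (isEnd_del_nb l ⟨_, hne⟩ rfl).2 h2, rfl⟩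
        · have hy : y ≠ nb G l := by rintro rfl; exact hs h1
          exact ⟨⟨y, h3⟩, (isEnd_del_of_ne l ⟨y, h3⟩ hy).2 h1, rfl⟩
    rw [himg, this, Set.ncard_insert_of_notMem (fun h => hs h.1),
      Set.ncard_sdiff_singleton_of_mem hlmem]
    have := ends_pos l
    omega

open scoped Classical in
include hK in
/-- the weights in a normal card -/
lemma wtN_del (hN : Normal l) (x : ({l.1}ᶜ : Set V)) :
    wtN (G.induce {l.1}ᶜ) x = wtN G x.1 - (if x.1 = nb G l then 1 else 0) := by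
  have himg : wtN (G.induce {l.1}ᶜ) x
      = ({y | G.Adj x.1 y ∧ IsEnd G y} \ {l.1}).ncard := by
    unfold wtN
    rw [← Set.ncard_image_of_injective _ Subtype.val_injective]
    congr 1
    ext y
    simp only [Set.mem_image, Set.mem_ofPred_eq, Set.mem_sdiff, Set.mem_singleton_iff]
    constructor
    · rintro ⟨y', ⟨h1, h2⟩, rfl⟩
      exact ⟨⟨by simpa [SimpleGraph.induce] using h1, (isEnd_del_normal hK l hN y').1 h2⟩, y'.2⟩
    · rintro ⟨⟨h1, h2⟩, h3⟩
      exact ⟨⟨y, h3⟩, ⟨by simpa [SimpleGraph.induce] using h1,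
        (isEnd_del_normal hK l hN ⟨y, h3⟩).2 h2⟩, rfl⟩
  rw [himg]
  by_cases hx : x.1 = nb G l
  · rw [if_pos hx, Set.ncard_sdiff_singleton_of_mem]
    · rfl
    · exact ⟨by rw [hx]; exact (nb_adj G l).symm, l.2⟩
  · rw [if_neg hx, Nat.sub_zero, Set.sdiff_singleton_eq_self]
    · rfl
    · rintro ⟨h1, _⟩
      exact hx (nb_unique G l (SimpleGraph.Adj.symm h1))

end counts

/-- cores isomorphic with matching weights give isomorphic graphs -/
lemma iso_of_core_weights {V W : Type*} [Finite V] [Finite W] {G : SimpleGraph V}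
    {G' : SimpleGraph W} (hK : NoK2 G) (hK' : NoK2 G')
    (φ : coreG G ≃g coreG G') (h : ∀ c, wtN G' (φ c).1 = wtN G c.1) : Nonempty (G ≃g G') := by
  classical
  have hfib : ∀ c : Cr G, Nonempty ({l : Ed G // sp hK l = c} ≃ {l : Ed G' // sp hK' l = φ c}) := by
    intro c
    have h1 : Nat.card {l : Ed G // sp hK l = c} = Nat.card {l : Ed G' // sp hK' l = φ c} := by
      have e1 : Nat.card {l : Ed G // sp hK l = c} = wtN G c.1 := by
        unfold wtN
        rw [← Nat.card_coe_set_eq]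
        refine Nat.card_congr ⟨fun l => ⟨l.1.1, ?_, l.1.2⟩, fun y => ⟨⟨y.1, y.2.2⟩, ?_⟩, ?_, ?_⟩
        · exact ((adj_sp hK l.1 c).2 l.2.symm).symm
        · exact ((adj_sp hK ⟨y.1, y.2.2⟩ c).1 y.2.1.symm).symm
        · intro l; rfl
        · intro y; rfl
      have e2 : Nat.card {l : Ed G' // sp hK' l = φ c} = wtN G' (φ c).1 := by
        unfold wtN
        rw [← Nat.card_coe_set_eq]
        refine Nat.card_congr ⟨fun l => ⟨l.1.1, ?_, l.1.2⟩, fun y => ⟨⟨y.1, y.2.2⟩, ?_⟩, ?_, ?_⟩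
        · exact ((adj_sp hK' l.1 (φ c)).2 l.2.symm).symm
        · exact ((adj_sp hK' ⟨y.1, y.2.2⟩ (φ c)).1 y.2.1.symm).symm
        · intro l; rfl
        · intro y; rfl
      rw [e1, e2, h c]
    exact Finite.card_eq.1 h1
  have F := fun c => (hfib c).some
  set e : Ed G ≃ Ed G' := (Equiv.sigmaFiberEquiv (sp hK)).symm.trans
    ((Equiv.sigmaCongr φ.toEquiv F).trans (Equiv.sigmaFiberEquiv (sp hK'))) with he
  refine iso_of_core hK hK' φ e fun l => ?_
  have : e l = (F (sp hK l) ⟨l, rfl⟩).1 := rfl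
  rw [this]
  exact (F (sp hK l) ⟨l, rfl⟩).2

end Pool.Agent.Helper63.EV
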