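import Mathlib
import Pool.Agent.Helper63.EV.Graph

set_option autoImplicit false
set_option linter.unusedSectionVars false

/-!
# The structure theorem for graphs
-/

namespace Pool.Agent.Helper63.EV

open Finset Equiv

lemma exists_NL_equiv {E C : Type*} [Fintype E] [Fintype C] [DecidableEq C] (s : E → C)
    (r z : C → ℕ) (h : ∀ c, Nat.card {l : E // s l = c} = z c + r c) :
    ∃ α : NL r z ≃ {l : E // 1 ≤ z (s l)}, ∀ x, s (α x).1 = x.1.1 := by
  classical
  have F : ∀ c, Fin (z c + r c) ≃ {l : E // s l = c} := fun c =>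
    (Finite.equivFinOfCardEq (h c)).symm
  set β : (Σ c, Fin (z c + r c)) ≃ E :=
    (Equiv.sigmaCongrRight F).trans (Equiv.sigmaFiberEquiv s) with hβ
  have h1 : ∀ x, s (β x) = x.1 := fun x => (F x.1 x.2).2
  exact ⟨β.subtypeEquiv fun x => by rw [h1], fun x => h1 x.1⟩

variable {V W : Type} [Fintype V] [Fintype W] {G : SimpleGraph V} {G' : SimpleGraph W}

open scoped Classical in
noncomputable instance instFintypeCr : Fintype (Cr G) := inferInstance

open scoped Classical in
noncomputable instance instFintypeEd : Fintype (Ed G) := inferInstance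

lemma card_fiber (hK : NoK2 G) (c : Cr G) :
    Nat.card {l : Ed G // sp hK l = c} = wtN G c.1 := by
  classical
  unfold wtN
  rw [← Nat.card_coe_set_eq]
  refine Nat.card_congr ⟨fun l => ⟨l.1.1, ?_, l.1.2⟩, fun y => ⟨⟨y.1, y.2.2⟩, ?_⟩, ?_, ?_⟩
  · exact ((adj_sp hK l.1 c).2 l.2.symm).symm
  · exact ((adj_sp hK ⟨y.1, y.2.2⟩ c).1 y.2.1.symm).symm
  · intro l; rfl
  · intro y; rfl

/-- degree in the core is invariant under core isomorphisms -/
lemma dgN_core_iso (φ : coreG G ≃g coreG G') (c : Cr G) : dgN G' (φ c).1 = dgN G c.1 := by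
  have h : ∀ {U : Type} (X : SimpleGraph U) (c : Cr X),
      dgN X c.1 = {x : Cr X | (coreG X).Adj c x}.ncard := by
    intro U X c
    unfold dgN
    rw [← Set.ncard_image_of_injective _ Subtype.val_injective]
    congr 1
    ext y
    simp only [Set.mem_image, Set.mem_ofPred_eq]
    constructor
    · rintro ⟨h1, h2⟩
      exact ⟨⟨y, h2⟩, by simpa [SimpleGraph.induce] using h1, rfl⟩
    · rintro ⟨x, h1, rfl⟩
      exact ⟨by simpa [SimpleGraph.induce] using h1, x.2⟩
  rw [h, h, ← Set.ncard_image_of_injective _ φ.injective]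
  congr 1
  ext y
  simp only [Set.mem_image, Set.mem_ofPred_eq]
  constructor
  · intro h1
    refine ⟨φ.symm y, ?_, by simp⟩
    rw [← φ.map_rel_iff]; simpa using h1
  · rintro ⟨x, h1, rfl⟩
    exact (φ.map_rel_iff).2 h1

open scoped Classical in
/-- isomorphisms of cards restrict to the cores -/
lemma core_iso_of_card (hK : NoK2 G) (hK' : NoK2 G') (l : Ed G) (l' : Ed G')
    (hl : Normal l) (hl' : Normal l') (ψ : G.induce {l.1}ᶜ ≃g G'.induce {l'.1}ᶜ) :
    ∃ φ : coreG G ≃g coreG G', ∀ c : Cr G,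
      (wtN G' (φ c).1 - if φ c = sp hK' l' then 1 else 0)
        = wtN G c.1 - if c = sp hK l then 1 else 0 := by
  classical
  have hne : ∀ c : Cr G, c.1 ∈ ({l.1}ᶜ : Set V) := fun c h => c.2 (by
    rw [Set.mem_singleton_iff.1 h]; exact l.2)
  have hne' : ∀ c : Cr G', c.1 ∈ ({l'.1}ᶜ : Set W) := fun c h => c.2 (by
    rw [Set.mem_singleton_iff.1 h]; exact l'.2)
  have hto : ∀ c : Cr G, ¬ IsEnd G' (ψ ⟨c.1, hne c⟩).1 := fun c h => c.2 (by
    rw [← isEnd_del_normal hK' l' hl', isEnd_iso ψ, isEnd_del_normal hK l hl] at h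
    exact h)
  have hfrom : ∀ c : Cr G', ¬ IsEnd G (ψ.symm ⟨c.1, hne' c⟩).1 := fun c h => c.2 (by
    rw [← isEnd_del_normal hK l hl, isEnd_iso ψ.symm, isEnd_del_normal hK' l' hl'] at h
    exact h)
  let φ : coreG G ≃g coreG G' :=
    { toFun := fun c => ⟨(ψ ⟨c.1, hne c⟩).1, hto c⟩
      invFun := fun c => ⟨(ψ.symm ⟨c.1, hne' c⟩).1, hfrom c⟩
      left_inv := fun c => by
        apply Subtype.ext
        have : (⟨(ψ ⟨c.1, hne c⟩).1, hne' ⟨_, hto c⟩⟩ : ({l'.1}ᶜ : Set W)) = ψ ⟨c.1, hne c⟩ := rfl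
        simp only [this, RelIso.symm_apply_apply]
      right_inv := fun c => by
        apply Subtype.ext
        have : (⟨(ψ.symm ⟨c.1, hne' c⟩).1, hne ⟨_, hfrom c⟩⟩ : ({l.1}ᶜ : Set V))
          = ψ.symm ⟨c.1, hne' c⟩ := rfl
        simp only [this, RelIso.apply_symm_apply]
      map_rel_iff' := by
        intro a b
        have := ψ.map_rel_iff (a := ⟨a.1, hne a⟩) (b := ⟨b.1, hne b⟩)
        simpa [SimpleGraph.induce] using this }
  refine ⟨φ, fun c => ?_⟩
  have h1 := wtN_del hK l hl ⟨c.1, hne c⟩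
  have h2 := wtN_del hK' l' hl' (ψ ⟨c.1, hne c⟩)
  rw [wtN_iso ψ, h1] at h2
  have e1 : (c.1 = nb G l) ↔ c = sp hK l := by
    constructor
    · intro h; exact Subtype.ext h
    · rintro rfl; rfl
  have e2 : ((ψ ⟨c.1, hne c⟩).1 = nb G' l') ↔ φ c = sp hK' l' := by
    constructor
    · intro h; exact Subtype.ext h
    · intro h; exact congrArg Subtype.val h
  simp only [e1, e2] at h2
  exact h2.symm

/-- the automorphisms of the core as a group of permutations -/
def GG (G : SimpleGraph V) : Subgroup (Perm (Cr G)) where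
  carrier := {σ | ∀ a b, (coreG G).Adj (σ a) (σ b) ↔ (coreG G).Adj a b}
  mul_mem' := by
    intro σ τ hσ hτ a b
    rw [Perm.mul_apply, Perm.mul_apply, hσ, hτ]
  one_mem' := by intro a b; simp
  inv_mem' := by
    intro σ hσ a b
    have h1 : σ (σ⁻¹ a) = a := σ.apply_symm_apply a
    have h2 : σ (σ⁻¹ b) = b := σ.apply_symm_apply b
    have := hσ (σ⁻¹ a) (σ⁻¹ b)
    rw [h1, h2] at this
    exact this.symm

lemma mem_GG {σ : Perm (Cr G)} :
    σ ∈ GG G ↔ ∀ a b, (coreG G).Adj (σ a) (σ b) ↔ (coreG G).Adj a b := Iff.rfl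

/-- deficiency of a core vertex -/
noncomputable def rr (G : SimpleGraph V) (c : Cr G) : ℕ := 2 - dgN G c.1

/-- excess of a core vertex -/
noncomputable def zz (G : SimpleGraph V) (c : Cr G) : ℕ := wtN G c.1 - rr G c

lemma rr_le (hN : NoIso G) (c : Cr G) : rr G c ≤ wtN G c.1 := by
  have := two_le hN c.2
  unfold rr; omega

lemma zz_add_rr (hN : NoIso G) (c : Cr G) : zz G c + rr G c = wtN G c.1 := by
  have := rr_le hN c
  unfold zz; omega

lemma rr_inv {γ : Perm (Cr G)} (hγ : γ ∈ GG G) (c : Cr G) : rr G (γ c) = rr G c := by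
  have := dgN_core_iso (G := G) (G' := G) ⟨γ, fun {a b} => hγ a b⟩ c
  unfold rr
  have h2 : dgN G (γ c).1 = dgN G c.1 := this
  rw [h2]

lemma wt_sp_pos (hK : NoK2 G) (l : Ed G) : 1 ≤ wtN G (sp hK l).1 := by
  unfold wtN
  have : 0 < {y | G.Adj (sp hK l).1 y ∧ IsEnd G y}.ncard :=
    (Set.ncard_pos).2 ⟨l.1, ((adj_sp hK l _).2 rfl).symm, l.2⟩
  exact this

lemma normal_iff (_hN : NoIso G) (hK : NoK2 G) (l : Ed G) : Normal l ↔ 1 ≤ zz G (sp hK l) := by
  have h1 := wt_sp_pos hK l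
  have h2 : nb G l = (sp hK l).1 := rfl
  unfold Normal zz rr
  rw [h2]
  omega

open scoped Classical in
/-- **The structure theorem.** -/
theorem graph_structure (hN : NoIso G) (hN' : NoIso G') (hK : NoK2 G) (hK' : NoK2 G')
    (hD : SameDeck G G') (hni : ¬ Nonempty (G ≃g G'))
    (hL : 5 ≤ Fintype.card (NL (rr G) (zz G)) ∨
      (3 ≤ Fintype.card (NL (rr G) (zz G)) ∧ ∀ c, rr G c = 0)) :
    (∀ O : Finset (Cr G), (∀ γ ∈ GG G, Pres O γ) → ∀ a,
      (lev O (zz G) (a + 1)).card ≤ (lev O (zz G) a).card) ∧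
    ∏ c, (1 + zz G c) ≤ 2 * Nat.card (GG G) := by
  classical
  obtain ⟨e, he⟩ := hD
  -- matching of normal endvertices
  have hcard : {y | IsEnd G y}.ncard = {y | IsEnd G' y}.ncard := by
    rw [← Nat.card_coe_set_eq, ← Nat.card_coe_set_eq]
    exact Nat.card_congr e
  have hnorm : ∀ l, Normal l ↔ Normal (e l) := by
    intro l
    obtain ⟨ψ⟩ := he l
    rw [← ends_del hK l hN, ← ends_del hK' (e l) hN', hcard, ncard_ends_iso ψ]
  have hcore : ∀ l, Normal l → ∃ φ : coreG G ≃g coreG G', ∀ c : Cr G,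
      (wtN G' (φ c).1 - if φ c = sp hK' (e l) then 1 else 0)
        = wtN G c.1 - if c = sp hK l then 1 else 0 := by
    intro l hl
    obtain ⟨ψ⟩ := he l
    exact core_iso_of_card hK hK' l (e l) hl ((hnorm l).1 hl) ψ
  -- labelling of the normal endvertices of `G`
  obtain ⟨α, hα⟩ := exists_NL_equiv (sp hK) (rr G) (zz G) (fun c => by
    rw [card_fiber, zz_add_rr hN])
  have hpos : 0 < Fintype.card (NL (rr G) (zz G)) := by omega
  obtain ⟨x0⟩ : Nonempty (NL (rr G) (zz G)) := Fintype.card_pos_iff.1 hpos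
  obtain ⟨φ0, -⟩ := hcore (α x0).1 ((normal_iff hN hK _).2 (α x0).2)
  have hr0 : ∀ c, rr G' (φ0 c) = rr G c := by
    intro c; unfold rr; rw [dgN_core_iso φ0 c]
  -- labelling of the normal endvertices of `G'`
  set z' : Cr G → ℕ := fun c => zz G' (φ0 c) with hz'
  obtain ⟨α', hα'⟩ := exists_NL_equiv (fun l' => φ0.symm (sp hK' l')) (rr G) z' (fun c => by
    have h1 : Nat.card {l // φ0.symm (sp hK' l) = c} = Nat.card {l // sp hK' l = φ0 c} := by
      refine Nat.card_congr (Equiv.subtypeEquivRight fun l => ?_)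
      constructor
      · intro h; rw [← h]; simp
      · intro h; rw [h]; simp
    rw [h1, card_fiber, hz', ← zz_add_rr hN', hr0])
  have hsub : ∀ l : Ed G, 1 ≤ zz G (sp hK l) ↔ 1 ≤ z' (φ0.symm (sp hK' (e l))) := by
    intro l
    rw [← normal_iff hN hK l, hnorm l, normal_iff hN' hK' (e l), hz']
    simp
  have hDeck : AbsDeck (GG G) (rr G) (zz G) z' := by
    refine ⟨α.trans ((e.subtypeEquiv hsub).trans α'.symm), fun x => ?_⟩
    set l : Ed G := (α x).1 with hl
    have hln : Normal l := (normal_iff hN hK _).2 (α x).2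
    obtain ⟨φ, hφ⟩ := hcore l hln
    set x' := (α.trans ((e.subtypeEquiv hsub).trans α'.symm)) x with hx'
    have hx1 : x.1.1 = sp hK l := (hα x).symm
    have hx2 : x'.1.1 = φ0.symm (sp hK' (e l)) := by
      rw [← hα' x']
      simp only [hx', Equiv.trans_apply, Equiv.apply_symm_apply]
      rfl
    set γ : Perm (Cr G) := φ0.toEquiv.trans φ.symm.toEquiv with hγ
    have hγa : ∀ c, φ (γ c) = φ0 c := by
      intro c
      change φ (φ.symm (φ0 c)) = φ0 c
      simp
    have hγm : γ ∈ GG G := by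
      intro a b
      rw [← φ.map_rel_iff, hγa, hγa, φ0.map_rel_iff]
    refine ⟨γ, hγm, ?_⟩
    funext c
    have h1 := hφ (γ c)
    rw [hγa] at h1
    have h2 := zz_add_rr hN' (φ0 c)
    have h3 := zz_add_rr hN (γ c)
    have h4 := rr_inv hγm c
    have h5 := hr0 c
    have e1 : (c = x'.1.1) ↔ φ0 c = sp hK' (e l) := by
      rw [hx2]
      constructor
      · intro h; rw [h]; simp
      · intro h; rw [← h]; simp
    have e2 : (γ c = x.1.1) ↔ γ c = sp hK l := by rw [hx1]
    have hlow1 : low z' x'.1.1 c = z' c - if φ0 c = sp hK' (e l) then 1 else 0 := by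
      by_cases h : c = x'.1.1
      · rw [if_pos (e1.1 h), h]; simp [low]
      · rw [if_neg (fun h' => h (e1.2 h'))]; simp [low, h]
    have hlow2 : (low (zz G) x.1.1 ∘ γ) c = zz G (γ c) - if γ c = sp hK l then 1 else 0 := by
      simp only [Function.comp]
      by_cases h : γ c = x.1.1
      · rw [if_pos (e2.1 h), h]; simp [low]
      · rw [if_neg (fun h' => h (e2.2 h'))]; simp [low, h]
    rw [hlow1, hlow2]
    have h6 : z' c = zz G' (φ0 c) := rfl
    rw [h6]
    omega
  have hne : ∀ γ ∈ GG G, zz G ≠ z' ∘ γ := by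
    intro γ hγ h
    apply hni
    set φ : coreG G ≃g coreG G' := (⟨γ, fun {a b} => hγ a b⟩ : coreG G ≃g coreG G).trans φ0 with hφ
    refine iso_of_core_weights hK hK' φ fun c => ?_
    have h1 := congrFun h c
    have h2 : (z' ∘ γ) c = zz G' (φ c) := rfl
    rw [h2] at h1
    have h3 := zz_add_rr hN c
    have h4 := zz_add_rr hN' (φ c)
    have h5 : rr G' (φ c) = rr G c := by
      have : φ c = φ0 (γ c) := rfl
      rw [this, hr0, rr_inv hγ]
    omega
  refine ⟨fun O hO a => ?_, ?_⟩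
  · exact levels_antitone (fun γ hγ v => rr_inv hγ v) (fun v => by unfold rr; omega) hDeck hL hne O
      hO a
  · exact group_bound (fun γ hγ v => rr_inv hγ v) (fun v => by unfold rr; omega) hDeck hL hne

end Pool.Agent.Helper63.EV
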