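import Mathlib
import Pool.Agent.Helper63.EV.Main

set_option autoImplicit false
set_option linter.unusedSectionVars false

/-!
# Numerical consequences
-/

namespace Pool.Agent.Helper63.EV

open Finset Equiv

variable {V W : Type} [Fintype V] [Fintype W] {G : SimpleGraph V} {G' : SimpleGraph W}

lemma sum_wt (hK : NoK2 G) : ∑ c : Cr G, wtN G c.1 = {y | IsEnd G y}.ncard := by
  classical
  have h1 : Nat.card (Σ c : Cr G, {l : Ed G // sp hK l = c}) = Nat.card (Ed G) :=
    Nat.card_congr (Equiv.sigmaFiberEquiv (sp hK))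
  rw [Nat.card_sigma] at h1
  rw [← Nat.card_coe_set_eq]
  have h2 : Nat.card (Ed G) = Nat.card {y | IsEnd G y} := rfl
  rw [← h2, ← h1]
  exact Finset.sum_congr rfl fun c _ => (card_fiber hK c).symm

lemma card_NL (hN : NoIso G) : Fintype.card (NL (rr G) (zz G))
    = ∑ c, if 1 ≤ zz G c then wtN G c.1 else 0 := by
  classical
  have := sum_NL (rr G) (zz G) (fun _ => (1 : ℕ))
  simp only [Finset.sum_const, Finset.card_univ, smul_eq_mul, mul_one] at this
  rw [this]
  exact Finset.sum_congr rfl fun c _ => by rw [zz_add_rr hN]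

lemma rr_le_two (c : Cr G) : rr G c ≤ 2 := by unfold rr; omega

lemma card_Cr : Fintype.card (Cr G) = {v | ¬ IsEnd G v}.ncard := by
  rw [← Nat.card_coe_set_eq, ← Nat.card_eq_fintype_card]; rfl

/-- many endvertices force at least five normal ones -/
lemma five_le (hN : NoIso G) (hK : NoK2 G)
    (h : 2 * {v | ¬ IsEnd G v}.ncard + 3 ≤ {v | IsEnd G v}.ncard) :
    5 ≤ Fintype.card (NL (rr G) (zz G)) := by
  classical
  rw [card_NL hN]
  have h1 : ∑ c : Cr G, wtN G c.1 = (∑ c, if 1 ≤ zz G c then wtN G c.1 else 0)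
      + ∑ c ∈ univ.filter (fun c => ¬ 1 ≤ zz G c), wtN G c.1 := by
    rw [← Finset.sum_filter, Finset.sum_filter_add_sum_filter_not]
  have h2 : ∑ c ∈ univ.filter (fun c : Cr G => ¬ 1 ≤ zz G c), wtN G c.1
      ≤ 2 * (univ.filter (fun c : Cr G => ¬ 1 ≤ zz G c)).card := by
    rw [mul_comm, ← smul_eq_mul]
    refine Finset.sum_le_card_nsmul _ _ _ fun c hc => ?_
    have h3 := (Finset.mem_filter.1 hc).2
    have h4 := zz_add_rr hN c
    have h5 := rr_le_two c
    omega
  rw [sum_wt hK] at h1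
  rw [← card_Cr] at h
  have h3 : (univ.filter (fun c : Cr G => 1 ≤ zz G c)).card
      + (univ.filter (fun c : Cr G => ¬ 1 ≤ zz G c)).card = Fintype.card (Cr G) := by
    rw [Finset.card_filter_add_card_filter_not, Finset.card_univ]
  have h4 : 1 ≤ (univ.filter (fun c : Cr G => 1 ≤ zz G c)).card := by
    by_contra hcon
    have h5 : (univ.filter (fun c : Cr G => 1 ≤ zz G c)) = ∅ := Finset.card_eq_zero.1 (by omega)
    have h6 : (∑ c, if 1 ≤ zz G c then wtN G c.1 else 0) = 0 := by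
      rw [← Finset.sum_filter, h5]; simp
    omega
  omega

lemma three_le (hN : NoIso G) (hK : NoK2 G) (hr : ∀ c : Cr G, rr G c = 0)
    (h : 3 ≤ {v | IsEnd G v}.ncard) :
    3 ≤ Fintype.card (NL (rr G) (zz G)) := by
  classical
  rw [card_NL hN]
  have : (∑ c, if 1 ≤ zz G c then wtN G c.1 else 0) = ∑ c : Cr G, wtN G c.1 := by
    refine Finset.sum_congr rfl fun c _ => ?_
    have := zz_add_rr hN c
    rw [hr c] at this
    split_ifs <;> omega
  rw [this, sum_wt hK]
  exact h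

/-- reduction: a non-isomorphic graph with the same deck, without adjacent endvertices -/
lemma exists_pair (hN : NoIso G) (h : ¬ ∀ (W : Type) [Fintype W] (G' : SimpleGraph W),
    NoIso G' → SameDeck G G' → Nonempty (G ≃g G')) :
    NoK2 G ∧ ∃ (W : Type) (_ : Fintype W) (G' : SimpleGraph W),
      NoIso G' ∧ NoK2 G' ∧ SameDeck G G' ∧ ¬ Nonempty (G ≃g G') := by
  push Not at h
  obtain ⟨W, hW, G', hN', hD, hni⟩ := h
  have hne : ¬ Nonempty (G ≃g G') := by
    rintro ⟨φ⟩
    exact hni.false φ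
  refine ⟨?_, W, hW, G', hN', ?_, hD, hne⟩
  · intro x y hx hy hxy
    exact hne (iso_of_adj_ends hN' hD hx hy hxy)
  · intro x y hx hy hxy
    obtain ⟨φ⟩ := iso_of_adj_ends hN hD.symm hx hy hxy
    exact hne ⟨φ.symm⟩

/-- the number of endvertices whose neighbour has degree at least three -/
noncomputable def nBig (G : SimpleGraph V) : ℕ :=
  {v | IsEnd G v ∧ ∃ u, G.Adj v u ∧ 3 ≤ {w | G.Adj u w}.ncard}.ncard

lemma nBig_eq (hN : NoIso G) (hK : NoK2 G) : nBig G = Fintype.card (NL (rr G) (zz G)) := by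
  classical
  obtain ⟨α, -⟩ := exists_NL_equiv (sp hK) (rr G) (zz G) (fun c => by
    rw [card_fiber, zz_add_rr hN])
  rw [← Nat.card_eq_fintype_card, Nat.card_congr α]
  unfold nBig
  rw [← Nat.card_coe_set_eq]
  have key : ∀ l : Ed G, (∃ u, G.Adj l.1 u ∧ 3 ≤ {w | G.Adj u w}.ncard) ↔ 1 ≤ zz G (sp hK l) := by
    intro l
    rw [← normal_iff hN hK l]
    unfold Normal
    rw [dg_add_wt]
    constructor
    · rintro ⟨u, hu, h3⟩
      rw [nb_unique G l hu] at h3
      exact h3
    · intro h3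
      exact ⟨nb G l, nb_adj G l, h3⟩
  refine Nat.card_congr
    { toFun := fun v => ⟨⟨v.1, v.2.1⟩, (key ⟨v.1, v.2.1⟩).1 v.2.2⟩
      invFun := fun l => ⟨l.1.1, l.1.2, (key l.1).2 l.2⟩
      left_inv := fun v => rfl
      right_inv := fun l => rfl }

/-- Non-reconstructible graphs: levels and group order. -/
theorem nonrec_structure (hN : NoIso G)
    (h : ¬ ∀ (W : Type) [Fintype W] (G' : SimpleGraph W),
      NoIso G' → SameDeck G G' → Nonempty (G ≃g G'))
    (hk : 2 * {v | ¬ IsEnd G v}.ncard + 3 ≤ {v | IsEnd G v}.ncard ∨ 5 ≤ nBig G ∨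
      (3 ≤ {v | IsEnd G v}.ncard ∧ ∀ c : Cr G, rr G c = 0)) :
    NoK2 G ∧ (∀ O : Finset (Cr G), (∀ γ ∈ GG G, Pres O γ) → ∀ a,
      (lev O (zz G) (a + 1)).card ≤ (lev O (zz G) a).card) ∧
    ∏ c, (1 + zz G c) ≤ 2 * Nat.card (GG G) := by
  obtain ⟨hK, W, hW, G', hN', hK', hD, hni⟩ := exists_pair hN h
  have hL : 5 ≤ Fintype.card (NL (rr G) (zz G)) ∨
      (3 ≤ Fintype.card (NL (rr G) (zz G)) ∧ ∀ c, rr G c = 0) := by
    rcases hk with h1 | h1 | ⟨h1, h2⟩
    · exact Or.inl (five_le hN hK h1)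
    · exact Or.inl (by rw [← nBig_eq hN hK]; exact h1)
    · exact Or.inr ⟨three_le hN hK h2 h1, h2⟩
  exact ⟨hK, graph_structure hN hN' hK hK' hD hni hL⟩

/-- total number of endvertices, via excess and deficiency -/
lemma ends_eq (hN : NoIso G) (hK : NoK2 G) :
    {v | IsEnd G v}.ncard = ∑ c, zz G c + ∑ c, rr G c := by
  rw [← sum_wt hK, ← Finset.sum_add_distrib]
  exact Finset.sum_congr rfl fun c _ => (zz_add_rr hN c).symm

/-- quadratic bound -/
lemma quad_bound (hN : NoIso G) (hK : NoK2 G)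
    (hlev : ∀ O : Finset (Cr G), (∀ γ ∈ GG G, Pres O γ) → ∀ a,
      (lev O (zz G) (a + 1)).card ≤ (lev O (zz G) a).card) :
    2 * {v | IsEnd G v}.ncard ≤ {v | ¬ IsEnd G v}.ncard * ({v | ¬ IsEnd G v}.ncard + 3) := by
  classical
  have h1 := total_le_choose (hlev univ fun γ _ => pres_univ γ)
  rw [Finset.card_univ, card_Cr] at h1
  have h2 : ∑ c : Cr G, rr G c ≤ 2 * {v | ¬ IsEnd G v}.ncard := by
    rw [← card_Cr, mul_comm, ← smul_eq_mul, ← Finset.card_univ]
    exact Finset.sum_le_card_nsmul _ _ _ fun c _ => rr_le_two c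
  rw [ends_eq hN hK]
  set m := {v | ¬ IsEnd G v}.ncard
  rcases Nat.eq_zero_or_pos m with h0 | h0
  · rw [h0] at h1 h2 ⊢; omega
  · obtain ⟨t, ht⟩ : ∃ t, m = t + 1 := ⟨m - 1, by omega⟩
    rw [ht] at h1 h2 ⊢
    simp only [Nat.add_sub_cancel] at h1
    nlinarith

/-- the excess is smaller than the size of the orbit -/
lemma zz_lt_orbit (hlev : ∀ O : Finset (Cr G), (∀ γ ∈ GG G, Pres O γ) → ∀ a,
      (lev O (zz G) (a + 1)).card ≤ (lev O (zz G) a).card) (c : Cr G) :
    zz G c < {d : Cr G | ∃ φ : coreG G ≃g coreG G, φ c = d}.ncard := by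
  classical
  set O : Finset (Cr G) := univ.filter fun d => ∃ φ : coreG G ≃g coreG G, φ c = d with hO
  have hpres : ∀ γ ∈ GG G, Pres O γ := by
    intro γ hγ d
    simp only [hO, Finset.mem_filter, Finset.mem_univ, true_and]
    constructor
    · rintro ⟨φ, hφ⟩
      refine ⟨φ.trans (⟨γ, fun {a b} => hγ a b⟩ : coreG G ≃g coreG G).symm, ?_⟩
      change γ.symm (φ c) = d
      rw [hφ]; simp
    · rintro ⟨φ, hφ⟩
      refine ⟨φ.trans (⟨γ, fun {a b} => hγ a b⟩ : coreG G ≃g coreG G), ?_⟩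
      change γ (φ c) = γ d
      rw [hφ]
  have hc : c ∈ O := Finset.mem_filter.2 ⟨Finset.mem_univ _, RelIso.refl _, rfl⟩
  have h1 := max_lt_card (hlev O hpres) hc
  have h2 : {d : Cr G | ∃ φ : coreG G ≃g coreG G, φ c = d}.ncard = O.card := by
    rw [← Set.ncard_coe_finset]
    congr 1
    ext d
    simp [hO]
  rw [h2]
  exact h1

/-- bound when the excess is at most `s` -/
lemma s_bound_zz (hN : NoIso G) (hK : NoK2 G) (hr : ∀ c : Cr G, rr G c = 0)
    (hlev : ∀ O : Finset (Cr G), (∀ γ ∈ GG G, Pres O γ) → ∀ a,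
      (lev O (zz G) (a + 1)).card ≤ (lev O (zz G) a).card) {s : ℕ}
    (hs : ∀ c : Cr G, zz G c ≤ s) :
    2 * {v | IsEnd G v}.ncard ≤ s * {v | ¬ IsEnd G v}.ncard := by
  classical
  have h1 := total_le (hlev univ fun γ _ => pres_univ γ) (M := s) (fun c _ => hs c)
  rw [Finset.card_univ, card_Cr] at h1
  rw [ends_eq hN hK]
  simp only [hr, Finset.sum_const_zero, add_zero]
  exact h1

/-- bound when at most `s` endvertices hang at each vertex -/
lemma s_bound_zero (hN : NoIso G) (hK : NoK2 G) (hr : ∀ c : Cr G, rr G c = 0)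
    (hlev : ∀ O : Finset (Cr G), (∀ γ ∈ GG G, Pres O γ) → ∀ a,
      (lev O (zz G) (a + 1)).card ≤ (lev O (zz G) a).card) {s : ℕ}
    (hs : ∀ v, ¬ IsEnd G v → wtN G v ≤ s) :
    2 * {v | IsEnd G v}.ncard ≤ s * {v | ¬ IsEnd G v}.ncard := by
  classical
  have h1 := total_le (hlev univ fun γ _ => pres_univ γ) (M := s) (fun c _ => by
    have := zz_add_rr hN c
    have := hs c.1 c.2
    omega)
  rw [Finset.card_univ, card_Cr] at h1
  rw [ends_eq hN hK]
  simp only [hr, Finset.sum_const_zero, add_zero]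
  exact h1

lemma s_bound (hN : NoIso G) (hK : NoK2 G)
    (hlev : ∀ O : Finset (Cr G), (∀ γ ∈ GG G, Pres O γ) → ∀ a,
      (lev O (zz G) (a + 1)).card ≤ (lev O (zz G) a).card) {s : ℕ}
    (hs : ∀ v, ¬ IsEnd G v → wtN G v ≤ s) :
    2 * {v | IsEnd G v}.ncard ≤ (s + 2) * {v | ¬ IsEnd G v}.ncard := by
  classical
  have hmap : ∀ c ∈ (univ : Finset (Cr G)), rr G c ∈ Finset.range 3 := fun c _ =>
    Finset.mem_range.2 (by have := rr_le_two c; omega)
  have key : ∀ i ∈ Finset.range 3, ∑ c ∈ univ.filter (fun c : Cr G => rr G c = i),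
      (2 * (zz G c + rr G c)) ≤ (s + 2) * (univ.filter (fun c : Cr G => rr G c = i)).card := by
    intro i hi
    have hi' := Finset.mem_range.1 hi
    set O := univ.filter (fun c : Cr G => rr G c = i) with hO
    have hOr : ∀ c ∈ O, rr G c = i := fun c hc => (Finset.mem_filter.1 hc).2
    have hpres : ∀ γ ∈ GG G, Pres O γ := by
      intro γ hγ c
      simp only [hO, Finset.mem_filter, Finset.mem_univ, true_and]
      rw [rr_inv hγ]
    have h1 := total_le (hlev O hpres) (M := s - i) (fun c hc => by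
      have h2 := zz_add_rr hN c
      have h3 := hs c.1 c.2
      have h4 := hOr c hc
      omega)
    rcases Finset.eq_empty_or_nonempty O with h0 | ⟨c0, hc0⟩
    · rw [h0]; simp
    · have his : i ≤ s := by
        have h2 := zz_add_rr hN c0
        have h3 := hs c0.1 c0.2
        have h4 := hOr c0 hc0
        omega
      have h2 : ∑ c ∈ O, 2 * (zz G c + rr G c) = 2 * ∑ c ∈ O, zz G c + 2 * i * O.card := by
        rw [← Finset.mul_sum, Finset.sum_add_distrib, Finset.sum_congr rfl hOr, Finset.sum_const,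
          smul_eq_mul]
        ring
      rw [h2]
      obtain ⟨t, ht⟩ : ∃ t, s = i + t := ⟨s - i, by omega⟩
      rw [ht] at h1 ⊢
      rw [Nat.add_sub_cancel_left] at h1
      have h3 : i * O.card ≤ 2 * O.card := Nat.mul_le_mul_right _ (by omega)
      nlinarith
  rw [ends_eq hN hK, ← Finset.sum_add_distrib, Finset.mul_sum,
    ← Finset.sum_fiberwise_of_maps_to hmap, ← card_Cr, ← Finset.card_univ,
    Finset.card_eq_sum_card_fiberwise hmap, Finset.mul_sum]
  exact Finset.sum_le_sum key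

end Pool.Agent.Helper63.EV
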