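import Mathlib
import Pool.Agent.Helper63.EV.Coro

set_option autoImplicit false

/-!
# The example with proportion `2/5`
-/

namespace Pool.Agent.Helper63.EV

/-- adjacency of the triangle `0,1,2` with endvertices `3, 4` both at `0` -/
def adj1 (a b : Fin 5) : Bool :=
  (a, b) ∈ [((0 : Fin 5), (1 : Fin 5)), (1, 0), (0, 2), (2, 0), (1, 2), (2, 1), (0, 3), (3, 0),
    (0, 4), (4, 0)]

/-- adjacency of the triangle `0,1,2` with endvertices `3` at `0` and `4` at `1` -/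
def adj2 (a b : Fin 5) : Bool :=
  (a, b) ∈ [((0 : Fin 5), (1 : Fin 5)), (1, 0), (0, 2), (2, 0), (1, 2), (2, 1), (0, 3), (3, 0),
    (1, 4), (4, 1)]

def X1 : SimpleGraph (Fin 5) where
  Adj a b := adj1 a b = true
  symm := ⟨by decide⟩
  loopless := ⟨by decide⟩

def X2 : SimpleGraph (Fin 5) where
  Adj a b := adj2 a b = true
  symm := ⟨by decide⟩
  loopless := ⟨by decide⟩

lemma isEnd_X1 (v : Fin 5) : IsEnd X1 v ↔ v = 3 ∨ v = 4 := by
  have h : ∀ v : Fin 5, (∃ x : Fin 5, (adj1 v x = true) ∧ ∀ y : Fin 5, adj1 v y = true → y = x)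
      ↔ v = 3 ∨ v = 4 := by decide
  exact h v

lemma isEnd_X2 (v : Fin 5) : IsEnd X2 v ↔ v = 3 ∨ v = 4 := by
  have h : ∀ v : Fin 5, (∃ x : Fin 5, (adj2 v x = true) ∧ ∀ y : Fin 5, adj2 v y = true → y = x)
      ↔ v = 3 ∨ v = 4 := by decide
  exact h v

lemma noIso_X1 : NoIso X1 := by
  have h : ∀ v : Fin 5, ∃ x : Fin 5, adj1 v x = true := by decide
  exact h

lemma noIso_X2 : NoIso X2 := by
  have h : ∀ v : Fin 5, ∃ x : Fin 5, adj2 v x = true := by decide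
  exact h

/-- a permutation mapping `l` to `l'` induces an isomorphism of cards -/
lemma card_iso {V : Type} {G G' : SimpleGraph V} (σ : Equiv.Perm V) (l l' : V) (hl : σ l = l')
    (h : ∀ a b, a ≠ l → b ≠ l → (G'.Adj (σ a) (σ b) ↔ G.Adj a b)) :
    Nonempty (G.induce {l}ᶜ ≃g G'.induce {l'}ᶜ) := by
  refine ⟨⟨σ.subtypeEquiv fun a => ?_, ?_⟩⟩
  · rw [Set.mem_compl_iff, Set.mem_compl_iff, Set.mem_singleton_iff, Set.mem_singleton_iff, ← hl,
      σ.injective.eq_iff]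
  · intro a b
    have := h a.1 b.1 a.2 b.2
    simpa [SimpleGraph.induce] using this

lemma sameDeck_X : SameDeck X1 X2 := by
  refine ⟨Equiv.subtypeEquivRight fun v => by rw [isEnd_X1, isEnd_X2], fun v => ?_⟩
  obtain ⟨v, hv⟩ := v
  rcases (isEnd_X1 v).1 hv with rfl | rfl
  · refine card_iso (Equiv.swap 0 1) 3 3 (by decide) ?_
    have h : ∀ a b : Fin 5, a ≠ 3 → b ≠ 3 →
        (adj2 (Equiv.swap 0 1 a) (Equiv.swap 0 1 b) = true ↔ adj1 a b = true) := by decide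
    exact h
  · refine card_iso 1 4 4 (by decide) ?_
    have h : ∀ a b : Fin 5, a ≠ 4 → b ≠ 4 → (adj2 a b = true ↔ adj1 a b = true) := by decide
    exact h

lemma not_iso_X : ¬ Nonempty (X1 ≃g X2) := by
  rintro ⟨φ⟩
  have h2 : ∀ v : Fin 5, ∃ x : Fin 5, x ≠ v ∧ ¬ adj2 v x = true := by decide
  have h1 : ∀ x : Fin 5, x ≠ 0 → adj1 0 x = true := by decide
  obtain ⟨x, hx, hx'⟩ := h2 (φ 0)
  obtain ⟨y, rfl⟩ := φ.surjective x
  have hy : y ≠ 0 := fun h => hx (by rw [h])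
  exact hx' ((φ.map_rel_iff (a := 0) (b := y)).2 (h1 y hy))

lemma ncard_ends_X1 : {v | IsEnd X1 v}.ncard = 2 := by
  have : {v | IsEnd X1 v} = {3, 4} := by
    ext v
    simp only [Set.mem_ofPred_eq, Set.mem_insert_iff, Set.mem_singleton_iff]
    exact isEnd_X1 v
  rw [this, Set.ncard_pair (by decide)]

end Pool.Agent.Helper63.EV
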