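import Mathlib
import Pool.Agent.Helper63.EV.Num

set_option autoImplicit false
set_option linter.unusedSectionVars false

/-!
# `L! ≤ ∏ (1 + z v)` when `∑ z v ≥ C(L, 2)` and the levels are non-increasing
-/

namespace Pool.Agent.Helper63.EV

open Finset

lemma pow_step (j : ℕ) : (j + 2) ^ j ≤ (j + 1) ^ (j + 1) := by
  have h1 : (1 : ℝ) + j * (-(1 / (j + 2))) ≤ (1 + (-(1 / ((j : ℝ) + 2)))) ^ j := by
    apply one_add_mul_le_pow
    have : (1 : ℝ) / (j + 2) ≤ 1 := by
      rw [div_le_one (by positivity)]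
      have : (0 : ℝ) ≤ j := by positivity
      linarith
    linarith
  have h2 : (1 : ℝ) + j * (-(1 / (j + 2))) = 2 / (j + 2) := by
    field_simp; ring
  have h3 : (1 + (-(1 / ((j : ℝ) + 2)))) = (j + 1) / (j + 2) := by
    field_simp; ring
  rw [h2, h3, div_pow, div_le_div_iff₀ (by positivity) (by positivity)] at h1
  -- 2 * (j+2)^j ≤ (j+1)^j * (j+2)
  have h4 : ((j : ℝ) + 2) ^ j ≤ ((j : ℝ) + 1) ^ (j + 1) := by
    have h5 : ((j : ℝ) + 1) ^ j * (j + 2) ≤ 2 * ((j : ℝ) + 1) ^ (j + 1) := by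
      rw [pow_succ]
      have : (0 : ℝ) ≤ ((j : ℝ) + 1) ^ j := by positivity
      have : (0 : ℝ) ≤ j := by positivity
      nlinarith
    linarith
  exact_mod_cast h4

lemma pow_le_fact_sq (j : ℕ) : (j + 2) ^ j ≤ ((j + 1).factorial) ^ 2 := by
  induction j with
  | zero => simp
  | succ j ih =>
    have h1 := pow_step (j + 1)
    calc (j + 1 + 2) ^ (j + 1) ≤ (j + 1 + 1) ^ (j + 1 + 1) := h1
      _ = (j + 2) ^ 2 * (j + 2) ^ j := by ring
      _ ≤ (j + 2) ^ 2 * ((j + 1).factorial) ^ 2 := Nat.mul_le_mul_left _ ih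
      _ = ((j + 1 + 1).factorial) ^ 2 := by
          rw [Nat.factorial_succ (j + 1)]; ring

/-- `log(j!) / (j (j-1))` is non-increasing -/
lemma log_fact_step (j : ℕ) :
    Real.log ((j + 2).factorial) * ((j + 1 : ℕ) * j : ℝ)
      ≤ Real.log ((j + 1).factorial) * ((j + 2 : ℕ) * (j + 1 : ℕ) : ℝ) := by
  have h1 : Real.log ((j + 2 : ℕ) : ℝ) * j ≤ 2 * Real.log ((j + 1).factorial) := by
    have h := pow_le_fact_sq j
    have h2 : (((j + 2) ^ j : ℕ) : ℝ) ≤ ((((j + 1).factorial) ^ 2 : ℕ) : ℝ) := by exact_mod_cast h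
    have h3 := Real.log_le_log (by positivity) h2
    push_cast at h3
    rw [Real.log_pow, Real.log_pow] at h3
    push_cast at h3 ⊢
    linarith
  have h2 : Real.log ((j + 2).factorial) = Real.log ((j + 2 : ℕ) : ℝ)
      + Real.log ((j + 1).factorial) := by
    rw [show j + 2 = (j + 1) + 1 from rfl, Nat.factorial_succ]
    push_cast
    rw [Real.log_mul (by positivity) (by positivity)]
  rw [h2]
  have h3 : (0 : ℝ) ≤ (j : ℝ) + 1 := by positivity
  push_cast at h1 ⊢
  nlinarith [mul_le_mul_of_nonneg_left h1 h3]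

lemma log_fact_mono {j L : ℕ} (hj : 1 ≤ j) (h : j ≤ L) :
    Real.log (L.factorial) * ((j : ℝ) * ((j : ℝ) - 1))
      ≤ Real.log (j.factorial) * ((L : ℝ) * ((L : ℝ) - 1)) := by
  induction L, h using Nat.le_induction with
  | base => exact le_refl _
  | succ n hn ih =>
    rcases Nat.eq_or_lt_of_le hj with h1 | h1
    · subst h1; simp
    obtain ⟨t, ht⟩ : ∃ t, n = t + 1 := ⟨n - 1, by omega⟩
    subst ht
    have hs := log_fact_step t
    push_cast at hs ih ⊢
    have ht1 : 1 ≤ t := by omega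
    have ht0 : (0 : ℝ) < t := by exact_mod_cast ht1
    have hj0 : (0 : ℝ) ≤ (j : ℝ) * ((j : ℝ) - 1) := by
      have : (1 : ℝ) ≤ j := by exact_mod_cast hj
      nlinarith
    -- multiply
    have e1 : (t : ℝ) + 1 - 1 = t := by ring
    have e2 : (t : ℝ) + 1 + 1 - 1 = t + 1 := by ring
    rw [e1] at ih
    rw [e2]
    have h2 : Real.log ((t + 1 + 1).factorial) * ((t : ℝ) + 1) * t * ((j : ℝ) * ((j : ℝ) - 1))
        ≤ Real.log ((t + 1).factorial) * (((t : ℝ) + 2) * (t + 1)) * ((j : ℝ) * ((j : ℝ) - 1)) := by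
      have := mul_le_mul_of_nonneg_right hs hj0
      calc _ = Real.log ((t + 2).factorial) * (((t : ℝ) + 1) * t) * ((j : ℝ) * ((j : ℝ) - 1)) := by
            ring
        _ ≤ _ := this
    have h3 : Real.log ((t + 1).factorial) * ((j : ℝ) * ((j : ℝ) - 1)) * (((t : ℝ) + 2) * (t + 1))
        ≤ Real.log (j.factorial) * (((t : ℝ) + 1) * t) * (((t : ℝ) + 2) * (t + 1)) :=
      mul_le_mul_of_nonneg_right ih (by positivity)
    have h4 : (((t : ℝ) + 1) * t) * (Real.log ((t + 1 + 1).factorial) * ((j : ℝ) * ((j : ℝ) - 1)))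
        ≤ (((t : ℝ) + 1) * t) * (Real.log (j.factorial) * (((t : ℝ) + 1 + 1) * (t + 1))) := by
      calc _ = Real.log ((t + 1 + 1).factorial) * ((t : ℝ) + 1) * t * ((j : ℝ) * ((j : ℝ) - 1)) := by
            ring
        _ ≤ _ := h2
        _ = Real.log ((t + 1).factorial) * ((j : ℝ) * ((j : ℝ) - 1)) * (((t : ℝ) + 2) * (t + 1)) := by
            ring
        _ ≤ _ := h3
        _ = _ := by ring
    exact le_of_mul_le_mul_left h4 (by positivity)

/-- Abel summation -/
lemma abel_nonneg (n : ℕ → ℝ) (g : ℕ → ℝ) (hn : ∀ a, n (a + 1) ≤ n a) (hn0 : ∀ a, 0 ≤ n a)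
    (J : ℕ) (hg : ∀ j ≤ J, 0 ≤ ∑ a ∈ Finset.range j, g a) :
    0 ≤ ∑ a ∈ Finset.range J, n a * g a := by
  have key : ∀ j, j ≤ J → 1 ≤ j → n (j - 1) * ∑ a ∈ Finset.range j, g a
      ≤ ∑ a ∈ Finset.range j, n a * g a := by
    intro j
    induction j with
    | zero => intro _ h; omega
    | succ j ih =>
      intro hj _
      rcases Nat.eq_zero_or_pos j with h0 | h0
      · subst h0; simp
      · have h1 := ih (by omega) h0
        rw [Finset.sum_range_succ, Finset.sum_range_succ, Nat.add_sub_cancel]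
        have h2 : n j ≤ n (j - 1) := by
          have := hn (j - 1)
          rwa [Nat.sub_add_cancel h0] at this
        have h3 := hg j (by omega)
        nlinarith
  rcases Nat.eq_zero_or_pos J with h0 | h0
  · subst h0; simp
  · exact (mul_nonneg (hn0 _) (hg J le_rfl)).trans (key J le_rfl h0)

variable {C : Type*} [Fintype C] [DecidableEq C]

lemma log_fact_sum (j : ℕ) : ∑ a ∈ Finset.range j, Real.log ((a : ℝ) + 1)
    = Real.log (j.factorial) := by
  induction j with
  | zero => simp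
  | succ j ih =>
    rw [Finset.sum_range_succ, ih, Nat.factorial_succ]
    push_cast
    rw [Real.log_mul (by positivity) (by positivity)]
    ring

theorem fact_le_prod {z : C → ℕ}
    (h : ∀ a, (lev univ z (a + 1)).card ≤ (lev univ z a).card) {L : ℕ}
    (hL : L.choose 2 ≤ ∑ v, z v) : L.factorial ≤ ∏ v, (1 + z v) := by
  classical
  rcases Nat.lt_or_ge L 2 with hL2 | hL2
  · have : L.factorial = 1 := by interval_cases L <;> rfl
    rw [this]
    exact Nat.one_le_iff_ne_zero.2 (Finset.prod_ne_zero_iff.2 fun v _ => by omega)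
  -- a bound for the values
  obtain ⟨M, hM⟩ : ∃ M, ∀ v, z v ≤ M := ⟨∑ v, z v, fun v =>
    Finset.single_le_sum (f := z) (fun _ _ => Nat.zero_le _) (Finset.mem_univ v)⟩
  have hmap : ∀ v ∈ (univ : Finset C), z v ∈ Finset.range (M + 1) := fun v _ =>
    Finset.mem_range.2 (Nat.lt_succ_of_le (hM v))
  by_cases hbig : ∃ v, L - 1 ≤ z v
  · -- all values `0, …, L - 1` occur
    obtain ⟨v0, hv0⟩ := hbig
    have hex : ∀ a ∈ Finset.range L, ∃ v, z v = a := by
      intro a ha
      have ha' := Finset.mem_range.1 ha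
      have h1 : 1 ≤ (lev univ z (z v0)).card :=
        Finset.card_pos.2 ⟨v0, mem_lev.2 ⟨Finset.mem_univ _, rfl⟩⟩
      have h2 := h1.trans (lev_antitone h (show a ≤ z v0 by omega))
      obtain ⟨v, hv⟩ := Finset.card_pos.1 h2
      exact ⟨v, (mem_lev.1 hv).2⟩
    have : Nonempty C := ⟨v0⟩
    choose! F hF using hex
    have hinj : Set.InjOn F (Finset.range L : Set ℕ) := by
      intro a ha b hb hab
      rw [← hF a ha, ← hF b hb, hab]
    calc L.factorial = ∏ a ∈ Finset.range L, (a + 1) := (Finset.prod_range_add_one_eq_factorial L).symm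
      _ = ∏ a ∈ Finset.range L, (1 + z (F a)) := by
          refine Finset.prod_congr rfl fun a ha => ?_
          rw [hF a ha, add_comm]
      _ = ∏ v ∈ (Finset.range L).image F, (1 + z v) :=
          (Finset.prod_image (f := fun v => 1 + z v) hinj).symm
      _ ≤ ∏ v, (1 + z v) := Finset.prod_le_prod_of_subset_of_one_le' (Finset.subset_univ _)
          fun v _ _ => by omega
  · push Not at hbig
    set D : ℝ := (L : ℝ) * ((L : ℝ) - 1) with hD
    have hDpos : 0 < D := by
      have : (2 : ℝ) ≤ L := by exact_mod_cast hL2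
      rw [hD]; nlinarith
    set g : ℕ → ℝ := fun a => D * Real.log ((a : ℝ) + 1) - 2 * Real.log (L.factorial) * a with hg
    have hG : ∀ j ≤ L, 0 ≤ ∑ a ∈ Finset.range j, g a := by
      intro j hj
      have h1 : ∑ a ∈ Finset.range j, g a
          = Real.log (j.factorial) * D - Real.log (L.factorial) * ((j : ℝ) * ((j : ℝ) - 1)) := by
        simp only [hg]
        rw [Finset.sum_sub_distrib, ← Finset.mul_sum, ← Finset.mul_sum, log_fact_sum]
        have h2 : (∑ a ∈ Finset.range j, (a : ℝ)) * 2 = (j : ℝ) * ((j : ℝ) - 1) := by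
          have := Finset.sum_range_id_mul_two j
          have h3 : ((∑ a ∈ Finset.range j, a : ℕ) : ℝ) * 2 = ((j * (j - 1) : ℕ) : ℝ) := by
            exact_mod_cast this
          rcases Nat.eq_zero_or_pos j with h0 | h0
          · subst h0; simp
          · push_cast [Nat.cast_sub h0] at h3
            exact h3
        have h3 : 2 * Real.log (L.factorial) * ∑ a ∈ Finset.range j, (a : ℝ)
            = Real.log (L.factorial) * ((∑ a ∈ Finset.range j, (a : ℝ)) * 2) := by ring
        rw [h3, h2]; ring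
      rw [h1]
      rcases Nat.eq_zero_or_pos j with h0 | h0
      · subst h0; simp
      · have := log_fact_mono h0 hj
        rw [hD]; linarith
    have hab := abel_nonneg (fun a => ((lev univ z a).card : ℝ)) g
      (fun a => by exact_mod_cast h a) (fun a => by positivity) L hG
    -- rewrite the sum over vertices
    have hmap' : ∀ v ∈ (univ : Finset C), z v ∈ Finset.range L := fun v _ =>
      Finset.mem_range.2 (by have := hbig v; omega)
    have hsum : ∑ a ∈ Finset.range L, ((lev univ z a).card : ℝ) * g a = ∑ v, g (z v) := by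
      rw [← Finset.sum_fiberwise_of_maps_to hmap']
      refine Finset.sum_congr rfl fun a _ => ?_
      rw [Finset.sum_congr rfl (fun v hv => by rw [(Finset.mem_filter.1 hv).2]),
        Finset.sum_const, nsmul_eq_mul]
      rfl
    rw [hsum] at hab
    have hsum2 : ∑ v, g (z v) = D * Real.log (∏ v, (1 + z v) : ℕ)
        - 2 * Real.log (L.factorial) * ((∑ v, z v : ℕ) : ℝ) := by
      simp only [hg]
      rw [Finset.sum_sub_distrib, ← Finset.mul_sum, ← Finset.mul_sum]
      push_cast
      rw [Real.log_prod (fun v _ => by positivity)]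
      congr 2
      exact Finset.sum_congr rfl fun v _ => by rw [add_comm]
    rw [hsum2] at hab
    have h2 : D ≤ 2 * ((∑ v, z v : ℕ) : ℝ) := by
      have h3 : ((L.choose 2 : ℕ) : ℝ) ≤ ((∑ v, z v : ℕ) : ℝ) := by exact_mod_cast hL
      rw [Nat.cast_choose_two] at h3
      rw [hD]; linarith
    have h4 : 0 ≤ Real.log (L.factorial) := Real.log_nonneg (by
      exact_mod_cast Nat.one_le_iff_ne_zero.2 (Nat.factorial_ne_zero L))
    have h5 : D * Real.log (L.factorial) ≤ D * Real.log (∏ v, (1 + z v) : ℕ) := by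
      nlinarith
    have h6 : Real.log (L.factorial) ≤ Real.log (∏ v, (1 + z v) : ℕ) :=
      le_of_mul_le_mul_left h5 hDpos
    have h7 : ((L.factorial : ℕ) : ℝ) ≤ ((∏ v, (1 + z v) : ℕ) : ℝ) := by
      rwa [Real.log_le_log_iff (by positivity)
        (by exact_mod_cast Nat.pos_of_ne_zero (Finset.prod_ne_zero_iff.2 fun v _ => by omega))] at h6
    exact_mod_cast h7

end Pool.Agent.Helper63.EV
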